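import Pool.Agent.Q38.PN.A2a

/-!
# Project PN: job A2 (sum of the squared influences)
-/

set_option autoImplicit false

namespace Pool.Agent.Q38.PNA

open MeasureTheory ProbabilityTheory Finset
open Pool.Agent.W533.LP Pool.Agent.Q295.PN Pool.Agent.Q38.PN

theorem rr_nonneg {ι : Type} [Fintype ι] [DecidableEq ι] [PartialOrder ι] {q : ℝ} (h0 : 0 < q)
    (h1 : q < 1) (j : ℕ) (x : ι) : 0 ≤ rr q j x := by
  unfold rr Pr
  apply Ex_nonneg h0 h1
  intro κ
  split_ifs <;> norm_num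

/-- the function on the plane -/
noncomputable def bb (q : ℝ) (N : ℕ) (x y : ℕ) : ℝ :=
  if h : x < N ∧ y < N then q * (1 - q) * rr q 0 ((⟨x, h.1⟩, ⟨y, h.2⟩) : Fin N × Fin N) else 0

theorem bb_fin (q : ℝ) (N : ℕ) (v : Fin N × Fin N) : bb q N v.1 v.2 = q * (1 - q) * rr q 0 v := by
  unfold bb
  rw [dif_pos ⟨v.1.2, v.2.2⟩]

theorem bb_nonneg {q : ℝ} (h0 : 0 < q) (h1 : q < 1) (N x y : ℕ) : 0 ≤ bb q N x y := by
  unfold bb
  split_ifs
  · exact mul_nonneg (mul_nonneg h0.le (by linarith)) (rr_nonneg h0 h1 0 _)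
  · exact le_rfl

theorem sum_box (N : ℕ) (f : ℕ → ℕ → ℝ) :
    ∑ x ∈ range N, ∑ y ∈ range N, f x y = ∑ v : Fin N × Fin N, f v.1 v.2 := by
  rw [Fintype.sum_prod_type, Finset.sum_range]
  refine sum_congr rfl fun x _ => ?_
  rw [Finset.sum_range]

/-- the sum over shifts is a sum over a small box -/
theorem sum_shift (q : ℝ) (N s x y : ℕ) :
    ∑ i ∈ range s, ∑ j ∈ range s, (if i ≤ x ∧ j ≤ y then bb q N (x - i) (y - j) else 0) =
      ∑ v ∈ (univ : Finset (Fin N × Fin N)).filter (fun v => (v.1 : ℕ) ≤ x ∧ x - (v.1 : ℕ) < s ∧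
        (v.2 : ℕ) ≤ y ∧ y - (v.2 : ℕ) < s), q * (1 - q) * rr q 0 v := by
  rw [← Finset.sum_product' (range s) (range s)
    (fun i j => if i ≤ x ∧ j ≤ y then bb q N (x - i) (y - j) else 0)]
  symm
  refine Finset.sum_of_injOn (fun v : Fin N × Fin N => (x - (v.1 : ℕ), y - (v.2 : ℕ))) ?_ ?_ ?_ ?_
  · intro v hv v' hv' h
    simp only [coe_filter, mem_univ, true_and, Set.mem_setOf_eq] at hv hv'
    simp only [Prod.mk.injEq] at h
    apply Prod.ext
    · apply Fin.ext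
      omega
    · apply Fin.ext
      omega
  · intro v hv
    simp only [coe_filter, mem_univ, true_and, Set.mem_setOf_eq] at hv
    simp only [coe_product, coe_range, Set.mem_prod, Set.mem_Iio]
    omega
  · rintro ⟨i, j⟩ hij hn
    simp only [mem_product, mem_range] at hij
    simp only
    split_ifs with h
    · by_cases h2 : x - i < N ∧ y - j < N
      · exfalso
        apply hn
        refine ⟨(⟨x - i, h2.1⟩, ⟨y - j, h2.2⟩), ?_, ?_⟩
        · simp only [coe_filter, mem_univ, true_and, Set.mem_setOf_eq]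
          omega
        · simp only [Prod.mk.injEq]
          omega
      · unfold bb
        rw [dif_neg h2]
    · rfl
  · intro v hv
    simp only [mem_filter, mem_univ, true_and] at hv
    simp only
    rw [if_pos (by omega), ← bb_fin q N v]
    congr 1
    · omega
    · omega

theorem a2 : S_A2 := by
  intro hMC hDE hK1 hKT hK11 hKP hTL hEA hAL hBE h9
  obtain ⟨C9, ν₀, hC9, hν₀, h9⟩ := h9
  obtain ⟨C11, hC11, h11⟩ := var_diff hK11
  refine ⟨2 * C9 + C11 + 31, ν₀, by linarith, hν₀, ?_⟩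
  intro q N hq hq1 hν hν4
  obtain ⟨Ω, _, μ, X, hX⟩ := lExist (ℕ × ℕ) (fun _ => q) (fun _ => ⟨hq.le, by linarith⟩)
  obtain ⟨W, hWd⟩ : ∃ W : ℕ → ℕ → Ω → ℕ, W = fun i j => X (i, j) := ⟨_, rfl⟩
  have hW : Bulk μ q W := by
    rw [hWd]
    exact hX
  have hprob : IsProbabilityMeasure μ := hW.prob
  obtain ⟨r, hr⟩ : ∃ r : ℝ, r = Real.sqrt q := ⟨_, rfl⟩
  have hr0 : 0 < r := by rw [hr]; exact Real.sqrt_pos.2 hq
  have hrq : r * r = q := by rw [hr]; exact Real.mul_self_sqrt hq.le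
  have hr4 : r ≤ 1 / 4 := by
    rw [hr, Real.sqrt_le_left (by norm_num)]
    norm_num
    exact hq1
  obtain ⟨ν, hνe⟩ : ∃ ν : ℝ, ν = (N : ℝ) * r := ⟨_, rfl⟩
  rw [← hr, ← hνe] at hν hν4
  rw [← hr, ← hνe]
  have hν1 : 1 ≤ ν := hν₀.trans hν
  have hν0 : 0 < ν := by linarith
  have hN0 : (0 : ℝ) < N := by
    by_contra h
    have h1 : (0 : ℝ) ≤ N := Nat.cast_nonneg _
    have h2 : (N : ℝ) = 0 := le_antisymm (not_lt.1 h) h1
    rw [h2, zero_mul] at hνe
    linarith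
  have hN1 : 1 ≤ N := by exact_mod_cast hN0
  -- N^2 q^2 ≤ 1
  have hNq : (N : ℝ) * N * q ^ 2 ≤ 1 := by
    have e1 : (N : ℝ) * N * q ^ 2 * (N : ℝ) ^ 2 = ν ^ 4 := by
      rw [hνe, ← hrq]
      ring
    have e2 : (0 : ℝ) < (N : ℝ) ^ 2 := by positivity
    have e3 : (N : ℝ) * N * q ^ 2 * (N : ℝ) ^ 2 ≤ 1 * (N : ℝ) ^ 2 := by
      rw [e1, one_mul]
      exact hν4
    exact le_of_mul_le_mul_right e3 e2
  -- s
  obtain ⟨w, hw⟩ : ∃ w : ℝ, w = ν ^ (1 / 2 : ℝ) := ⟨_, rfl⟩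
  have hw1 : 1 ≤ w := by
    rw [hw]
    exact Real.one_le_rpow hν1 (by norm_num)
  have hw2 : w * w = ν := by
    rw [hw, ← Real.rpow_add hν0]
    norm_num
  obtain ⟨s, hs⟩ : ∃ s : ℕ, s = ⌊w / r⌋₊ := ⟨_, rfl⟩
  have hwr : 4 ≤ w / r := by
    rw [le_div_iff₀ hr0]
    linarith
  have s1 : (s : ℝ) ≤ w / r := by
    rw [hs]
    exact Nat.floor_le (by linarith)
  have s2 : w / r - 1 < (s : ℝ) := by
    rw [hs]
    exact Nat.sub_one_lt_floor _
  have hsr1 : (s : ℝ) * r ≤ w := by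
    rw [le_div_iff₀ hr0] at s1
    exact s1
  have hsr2 : w / 2 ≤ (s : ℝ) * r := by
    have e1 : w / r / 2 ≤ (s : ℝ) := by linarith
    have e2 := mul_le_mul_of_nonneg_right e1 hr0.le
    have e3 : w / r / 2 * r = w / 2 := by field_simp
    linarith
  have hsp : (1 : ℝ) ≤ s := by linarith
  have hs1 : 1 ≤ s := by exact_mod_cast hsp
  -- the mean
  have hmean : mean r ≤ 4 / 3 * r := by
    unfold mean
    rw [div_le_iff₀ (by linarith)]
    nlinarith
  have hq0 : 0 < 1 - q := by linarith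
  have hqq : 0 < q * (1 - q) := by positivity
  -- Bessel
  obtain ⟨hB1, hB2⟩ := hBE hMC hDE hKP hTL hK11
  obtain ⟨V, hV⟩ : ∃ V : ℝ, V = (2 * C9 + C11) * ν ^ (52 / 100 : ℝ) := ⟨_, rfl⟩
  have hν52 : 1 ≤ ν ^ (52 / 100 : ℝ) := Real.one_le_rpow hν1 (by norm_num)
  have hstep : ∀ i < s, ∀ j < s, ∑ x ∈ range (N + s), ∑ y ∈ range (N + s),
      (bb q N x y - (if i ≤ x ∧ j ≤ y then bb q N (x - i) (y - j) else 0)) ^ 2 ≤
        q * (1 - q) * V := by
    intro i hi j hj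
    obtain ⟨-, m1, -⟩ := hK11.choose_spec.2 μ q W N N hq hq1 hW
    have hW2 : Bulk μ q (shr i j W) := ((lOps μ q).2.2 W hW).1 i j
    obtain ⟨-, m2, -⟩ := hK11.choose_spec.2 μ q (shr i j W) N N hq hq1 hW2
    have hir : (i : ℝ) * Real.sqrt q ≤ (N * Real.sqrt q) ^ (1 / 2 : ℝ) := by
      rw [← hr, ← hνe, ← hw]
      have : (i : ℝ) ≤ s := by exact_mod_cast hi.le
      exact (mul_le_mul_of_nonneg_right this hr0.le).trans hsr1
    have hjr : (j : ℝ) * Real.sqrt q ≤ (N * Real.sqrt q) ^ (1 / 2 : ℝ) := by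
      rw [← hr, ← hνe, ← hw]
      have : (j : ℝ) ≤ s := by exact_mod_cast hj.le
      exact (mul_le_mul_of_nonneg_right this hr0.le).trans hsr1
    have hv := h9 μ q W N i j hq hq1 (by rw [← hr, ← hνe]; exact hν) hir hjr hW
    rw [← hr, ← hνe] at hv
    have hd := h11 μ q W N i j hq hq1 hW hNq
    have hVb : variance (fun ω => (Tr (ind W) N N ω : ℝ) - Tr (ind (shr i j W)) N N ω) μ ≤ V := by
      refine hd.trans ?_
      rw [hV]
      have e1 : C11 ≤ C11 * ν ^ (52 / 100 : ℝ) := le_mul_of_one_le_right (by linarith) hν52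
      linarith
    have hb := hB1 μ q W (N + s)
      (fun ω => (Tr (ind W) N N ω : ℝ) - Tr (ind (shr i j W)) N N ω) hq (by linarith) hW
      (m1.sub m2)
    refine le_trans (le_of_eq ?_) (hb.trans (mul_le_mul_of_nonneg_left hVb hqq.le))
    refine sum_congr rfl fun x _ => sum_congr rfl fun y _ => ?_
    rw [covariance_fun_sub_left m1 m2 (ind_memLp hW x y)]
    have c0 := hB2 μ q W N 0 0 x y hq (by linarith) hW
    have c1 := hB2 μ q W N i j x y hq (by linarith) hW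
    have hsh : shr 0 0 W = W := rfl
    rw [hsh] at c0
    rw [c0, c1]
    congr 2
    · unfold bb
      by_cases hxy : x < N ∧ y < N
      · rw [dif_pos hxy, dif_pos ⟨Nat.zero_le _, hxy.1, Nat.zero_le _, hxy.2⟩]
        rfl
      · rw [dif_neg hxy, dif_neg (fun h => hxy ⟨h.2.1, h.2.2.2⟩)]
    · by_cases hij : i ≤ x ∧ j ≤ y
      · rw [if_pos hij]
        unfold bb
        by_cases hxy : x - i < N ∧ y - j < N
        · rw [dif_pos hxy, dif_pos ⟨hij.1, hxy.1, hij.2, hxy.2⟩]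
        · rw [dif_neg hxy, dif_neg (fun h => hxy ⟨h.2.1, h.2.2.2⟩)]
      · rw [if_neg hij, dif_neg (fun h => hij ⟨h.1, h.2.2.1⟩)]
  -- the sums
  have hsumA : ∀ A : Finset (Fin N × Fin N),
      ∑ v ∈ A, q * (1 - q) * rr q 0 v ≤ Ex q (fun κ => (mc (op κ ∩ A) : ℝ)) := by
    intro A
    refine le_trans (sum_le_sum fun v _ => ?_) (hEA hMC hDE (Fin N × Fin N) q A hq (by linarith))
    apply mul_le_mul_of_nonneg_right _ (rr_nonneg hq (by linarith) 0 v)
    have : q * (1 - q) ≤ q * 1 := mul_le_mul_of_nonneg_left (by linarith) hq.le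
    linarith
  have hEN : ∑ x ∈ range N, ∑ y ∈ range N, bb q N x y ≤ 8 / 3 * ν := by
    rw [sum_box]
    have e1 : ∑ v : Fin N × Fin N, bb q N v.1 v.2 = ∑ v : Fin N × Fin N, q * (1 - q) * rr q 0 v :=
      sum_congr rfl fun v _ => bb_fin q N v
    rw [e1]
    refine (hsumA univ).trans ((Ex_chain hMC hK1 hKT hKP hTL hq hq1 hW N N 0 0 hN1 univ
      (fun v _ => ⟨Nat.zero_le _, by omega, Nat.zero_le _, by omega⟩)).trans ?_)
    rw [← hr]
    have e2 : 2 * (N : ℝ) * mean r ≤ 2 * N * (4 / 3 * r) :=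
      mul_le_mul_of_nonneg_left hmean (by positivity)
    rw [hνe]
    linarith
  have hEs : ∀ x y, ∑ i ∈ range s, ∑ j ∈ range s,
      (if i ≤ x ∧ j ≤ y then bb q N (x - i) (y - j) else 0) ≤ 8 / 3 * (s * r) := by
    intro x y
    rw [sum_shift]
    refine (hsumA _).trans ((Ex_chain hMC hK1 hKT hKP hTL hq hq1 hW N s (x + 1 - s) (y + 1 - s) hs1 _
      (fun v hv => ?_)).trans ?_)
    · simp only [mem_filter, mem_univ, true_and] at hv
      omega
    · rw [← hr]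
      have e2 : 2 * (s : ℝ) * mean r ≤ 2 * s * (4 / 3 * r) :=
        mul_le_mul_of_nonneg_left hmean (by positivity)
      linarith
  have hal := hAL N s (bb q N) (q * (1 - q) * V) (8 / 3 * ν) (8 / 3 * (s * r)) hs1
    (bb_nonneg hq (by linarith) N) (fun x y hxy => by
      unfold bb
      rw [dif_neg]
      omega) hstep hEN (by positivity) hEs
  rw [sum_box N (fun x y => bb q N x y ^ 2)] at hal
  have e1 : ∑ v : Fin N × Fin N, bb q N v.1 v.2 ^ 2 =
      (q * (1 - q)) ^ 2 * ∑ v : Fin N × Fin N, (rr q 0 v) ^ 2 := by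
    rw [mul_sum]
    refine sum_congr rfl fun v _ => ?_
    rw [bb_fin]
    ring
  rw [e1] at hal
  obtain ⟨R, hR⟩ : ∃ R : ℝ, R = ∑ v : Fin N × Fin N, (rr q 0 v) ^ 2 := ⟨_, rfl⟩
  rw [← hR] at hal
  rw [← hR]
  have hR0 : 0 ≤ R := by
    rw [hR]
    exact sum_nonneg fun v _ => sq_nonneg _
  -- the cross term
  have e2 : 2 * (8 / 3 * ν) * (8 / 3 * (s * r)) / (s : ℝ) ^ 2 ≤ q * (1 - q) * (31 * w) := by
    have f1 : 2 * (8 / 3 * ν) * (8 / 3 * (s * r)) / (s : ℝ) ^ 2 = 128 / 9 * (ν * q) / (s * r) := by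
      rw [← hrq]
      field_simp
      ring
    rw [f1, div_le_iff₀ (by positivity)]
    have f2 : 15 / 16 ≤ 1 - q := by linarith
    have f3 : q * (15 / 16) * (31 * w) * (w / 2) ≤ q * (1 - q) * (31 * w) * (s * r) := by
      apply mul_le_mul _ hsr2 (by positivity) (by positivity)
      apply mul_le_mul_of_nonneg_right _ (by positivity)
      exact mul_le_mul_of_nonneg_left f2 hq.le
    refine le_trans ?_ f3
    have f4 : q * (15 / 16) * (31 * w) * (w / 2) = 465 / 32 * (q * (w * w)) := by ring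
    rw [f4, hw2]
    have f5 : 0 ≤ q * ν := by positivity
    linarith
  have hww : w ≤ ν ^ (52 / 100 : ℝ) := by
    rw [hw]
    exact Real.rpow_le_rpow_of_exponent_le hν1 (by norm_num)
  have e3 : q * (1 - q) * (2 * (q * (1 - q) * R)) ≤ q * (1 - q) * (V + 31 * w) := by
    have f1 : q * (1 - q) * (2 * (q * (1 - q) * R)) = 2 * ((q * (1 - q)) ^ 2 * R) := by ring
    rw [f1]
    linarith
  have e4 : 2 * (q * (1 - q) * R) ≤ V + 31 * w := le_of_mul_le_mul_left e3 hqq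
  have e5 : q * R ≤ 2 * (q * (1 - q) * R) := by
    have f1 : 0 ≤ q * R := mul_nonneg hq.le hR0
    have f2 : q * R * 1 ≤ q * R * (2 * (1 - q)) := mul_le_mul_of_nonneg_left (by linarith) f1
    linarith
  have e6 : (2 * C9 + C11 + 31) * ν ^ (52 / 100 : ℝ) = V + 31 * ν ^ (52 / 100 : ℝ) := by
    rw [hV]
    ring
  rw [e6]
  linarith

end Pool.Agent.Q38.PNA
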