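import Pool.Agent.Q38.PN.K10a

/-!
# Project PN: job K10 (lower bound for the variance of a difference)
-/

set_option autoImplicit false

namespace Pool.Agent.Q38.PNK

open MeasureTheory ProbabilityTheory Filter Topology
open Pool.Agent.W533.LP Pool.Agent.Q295.PN

theorem num (κ ν₁ : ℝ) (hκ : 0 < κ) : ∃ ν₀ : ℝ, 1 ≤ ν₀ ∧ ∀ ν : ℝ, ν₀ ≤ ν →
    4 * ν ^ (58 / 100 : ℝ) ≤ ν ∧ 2 * ν₁ ≤ ν ∧ 8 ≤ ν ^ (58 / 100 : ℝ) ∧
    2 * ν ^ (-(307 / 1000 : ℝ)) ≤ ν ^ (-(305 / 1000 : ℝ)) ∧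
    160 * ν ^ (58 / 100 : ℝ) ≤ ν * ν ^ (-(305 / 1000 : ℝ)) ∧
    96 * (ν ^ (58 / 100 : ℝ) * ν ^ (-(305 / 1000 : ℝ))) ≤ κ * ν ^ (29 / 100 : ℝ) := by
  have hl : ∀ e : ℝ, 0 < e → ∀ c : ℝ, ∀ᶠ ν : ℝ in atTop, c ≤ ν ^ e :=
    fun e he c => (tendsto_rpow_atTop he).eventually_ge_atTop c
  obtain ⟨ν₀, h⟩ := eventually_atTop.1 ((((hl (42 / 100) (by norm_num) 4).and
    (hl (58 / 100) (by norm_num) 8)).and ((hl (2 / 1000) (by norm_num) 2).and
    (hl (115 / 1000) (by norm_num) 160))).and ((hl (15 / 1000) (by norm_num) (96 / κ)).and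
    (eventually_ge_atTop (2 * ν₁))))
  refine ⟨max ν₀ 1, le_max_right _ _, fun ν hν => ?_⟩
  obtain ⟨⟨⟨g1, g2⟩, ⟨g3, g4⟩⟩, ⟨g5, g6⟩⟩ := h ν ((le_max_left _ _).trans hν)
  have hν1 : 1 ≤ ν := (le_max_right _ _).trans hν
  have hν0 : 0 < ν := by linarith
  refine ⟨?_, g6, g2, ?_, ?_, ?_⟩
  · calc 4 * ν ^ (58 / 100 : ℝ) ≤ ν ^ (42 / 100 : ℝ) * ν ^ (58 / 100 : ℝ) :=
          mul_le_mul_of_nonneg_right g1 (by positivity)
      _ = ν := by rw [← Real.rpow_add hν0]; norm_num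
  · calc 2 * ν ^ (-(307 / 1000 : ℝ)) ≤ ν ^ (2 / 1000 : ℝ) * ν ^ (-(307 / 1000 : ℝ)) :=
          mul_le_mul_of_nonneg_right g3 (by positivity)
      _ = ν ^ (-(305 / 1000 : ℝ)) := by rw [← Real.rpow_add hν0]; norm_num
  · calc 160 * ν ^ (58 / 100 : ℝ) ≤ ν ^ (115 / 1000 : ℝ) * ν ^ (58 / 100 : ℝ) :=
          mul_le_mul_of_nonneg_right g4 (by positivity)
      _ = ν ^ (1 : ℝ) * ν ^ (-(305 / 1000 : ℝ)) := by
        rw [← Real.rpow_add hν0, ← Real.rpow_add hν0]; norm_num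
      _ = _ := by rw [Real.rpow_one]
  · rw [div_le_iff₀ hκ] at g5
    calc 96 * (ν ^ (58 / 100 : ℝ) * ν ^ (-(305 / 1000 : ℝ))) = 96 * ν ^ (275 / 1000 : ℝ) := by
          rw [← Real.rpow_add hν0]; norm_num
      _ ≤ (ν ^ (15 / 1000 : ℝ) * κ) * ν ^ (275 / 1000 : ℝ) :=
          mul_le_mul_of_nonneg_right g5 (by positivity)
      _ = κ * (ν ^ (15 / 1000 : ℝ) * ν ^ (275 / 1000 : ℝ)) := by ring
      _ = κ * ν ^ (29 / 100 : ℝ) := by rw [← Real.rpow_add hν0]; norm_num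

/-- the exponents for `n` with `ν / 2 ≤ n r ≤ ν` -/
theorem window {ν x : ℝ} (hν : 1 ≤ ν) (h1 : ν / 2 ≤ x) (h2 : x ≤ ν)
    (h3 : 2 * ν ^ (-(307 / 1000 : ℝ)) ≤ ν ^ (-(305 / 1000 : ℝ))) :
    x ^ (-(307 / 1000 : ℝ)) ≤ ν ^ (-(305 / 1000 : ℝ)) ∧
    ν ^ (-(305 / 1000 : ℝ)) ≤ x ^ (-(302 / 1000 : ℝ)) := by
  have hν0 : 0 < ν := by linarith
  have hx0 : 0 < x := by linarith
  constructor
  · calc x ^ (-(307 / 1000 : ℝ)) ≤ (ν / 2) ^ (-(307 / 1000 : ℝ)) :=
          Real.rpow_le_rpow_of_nonpos (by linarith) h1 (by norm_num)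
      _ = ν ^ (-(307 / 1000 : ℝ)) / 2 ^ (-(307 / 1000 : ℝ)) :=
          Real.div_rpow hν0.le (by norm_num) _
      _ ≤ 2 * ν ^ (-(307 / 1000 : ℝ)) := by
          rw [div_le_iff₀ (by positivity)]
          have h4 : (2 : ℝ) ^ (-(1 : ℝ)) ≤ 2 ^ (-(307 / 1000 : ℝ)) :=
            Real.rpow_le_rpow_of_exponent_le (by norm_num) (by norm_num)
          rw [Real.rpow_neg_one] at h4
          have h5 : 0 < ν ^ (-(307 / 1000 : ℝ)) := by positivity
          have h6 : 1 ≤ 2 * (2 : ℝ) ^ (-(307 / 1000 : ℝ)) := by linarith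
          calc ν ^ (-(307 / 1000 : ℝ)) ≤ ν ^ (-(307 / 1000 : ℝ)) *
                (2 * (2 : ℝ) ^ (-(307 / 1000 : ℝ))) := le_mul_of_one_le_right h5.le h6
            _ = _ := by ring
      _ ≤ _ := h3
  · calc ν ^ (-(305 / 1000 : ℝ)) ≤ ν ^ (-(302 / 1000 : ℝ)) :=
          Real.rpow_le_rpow_of_exponent_le hν (by norm_num)
      _ ≤ x ^ (-(302 / 1000 : ℝ)) := Real.rpow_le_rpow_of_nonpos hx0 h2 (by norm_num)

theorem k10 : S_K10 := by
  intro h1 h2 h3 hKM h5 h6 h7 hKD hKAC hKT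
  obtain ⟨κ, hκ, hac⟩ := hKAC h1
  obtain ⟨ν₁, hν₁, h7⟩ := h7 h2 h3 hKM h5 h6 (κ / 4) (by positivity)
  obtain ⟨CT, hCT, hT⟩ := hKT h1
  obtain ⟨ν₀, hν₀, hnum⟩ := num κ ν₁ hκ
  refine ⟨κ ^ 3 / 72, ν₀, by positivity, hν₀, ?_⟩
  intro Ω _ μ q W N M K hq hq16 hν hKN hNM hts hσ1 hσ2 hW
  have hprob : IsProbabilityMeasure μ := hW.prob
  obtain ⟨t, rfl⟩ := Nat.exists_eq_add_of_le hKN
  obtain ⟨s, rfl⟩ := Nat.exists_eq_add_of_le hNM
  have hts' : t ≤ s := by omega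
  obtain ⟨r, hr⟩ : ∃ r : ℝ, r = Real.sqrt q := ⟨_, rfl⟩
  have hr0 : 0 < r := by rw [hr]; exact Real.sqrt_pos.2 hq
  have hrq : r * r = q := by rw [hr]; exact Real.mul_self_sqrt hq.le
  have hr4 : r ≤ 1 / 4 := by
    rw [hr, Real.sqrt_le_left (by norm_num)]
    norm_num
    exact hq16
  obtain ⟨ν, hνe⟩ : ∃ ν : ℝ, ν = ((K + t : ℕ) : ℝ) * r := ⟨_, rfl⟩
  rw [← hr] at hν hσ1 hσ2
  rw [← hr]
  rw [← hνe] at hν hσ1 hσ2
  rw [← hνe]
  obtain ⟨n1, n2, n3, n4, n5, n6⟩ := hnum ν hν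
  have hν1 : 1 ≤ ν := hν₀.trans hν
  have hν0 : 0 < ν := by linarith
  obtain ⟨θ, hθ⟩ : ∃ θ : ℝ, θ = ν ^ (-(305 / 1000 : ℝ)) := ⟨_, rfl⟩
  obtain ⟨w, hw⟩ : ∃ w : ℝ, w = ν ^ (29 / 100 : ℝ) := ⟨_, rfl⟩
  have hw0 : 0 < w := by rw [hw]; positivity
  have hw2 : ν ^ (58 / 100 : ℝ) = w ^ 2 := by
    rw [hw, ← Real.rpow_natCast, ← Real.rpow_mul hν0.le]
    norm_num
  have hθ0 : 0 < θ := by rw [hθ]; positivity
  have hθ1 : θ ≤ 1 := by
    rw [hθ]
    exact Real.rpow_le_one_of_one_le_of_nonpos hν1 (by norm_num)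
  have hwin := fun x h1 h2 => window (x := x) hν1 h1 h2 n4
  rw [← hθ] at n5 n6 hwin
  rw [hw2] at n1 n3 n5 n6 hσ1 hσ2 ⊢
  rw [← hw] at n6
  -- casts
  have cM : ((K + t + s : ℕ) : ℝ) - ((K + t : ℕ) : ℝ) = s := by push_cast; ring
  rw [cM] at hσ1 hσ2
  have hK0 : (0 : ℝ) ≤ K := Nat.cast_nonneg _
  have ht0 : (0 : ℝ) ≤ t := Nat.cast_nonneg _
  have hs0 : (0 : ℝ) ≤ s := Nat.cast_nonneg _
  have htsr : (t : ℝ) ≤ s := by exact_mod_cast hts'
  have hνK : ν = K * r + t * r := by rw [hνe]; push_cast; ring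
  have htr : (t : ℝ) * r ≤ s * r := mul_le_mul_of_nonneg_right htsr hr0.le
  have htr0 : (0 : ℝ) ≤ t * r := by positivity
  have hKr1 : ν / 2 ≤ K * r := by linarith
  have hKr2 : K * r ≤ ν := by linarith
  -- K7 at the three points
  have w1 := hwin (K * r) hKr1 hKr2
  have w2 := hwin ν (by linarith) le_rfl
  have c1 : 20 * |((K + t : ℕ) : ℝ) - (K : ℝ)| ≤ K * θ := by
    have e1 : ((K + t : ℕ) : ℝ) - (K : ℝ) = t := by push_cast; ring
    rw [e1, abs_of_nonneg ht0]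
    have e2 : 20 * (t : ℝ) * r ≤ K * θ * r := by
      have e3 : ν * θ ≤ 2 * (K * r) * θ := mul_le_mul_of_nonneg_right (by linarith) hθ0.le
      have e4 : 0 ≤ w ^ 2 := by positivity
      have e5 : 80 * w ^ 2 ≤ K * r * θ := by linarith
      have e6 : 20 * (t : ℝ) * r ≤ 40 * w ^ 2 := by linarith
      calc 20 * (t : ℝ) * r ≤ 40 * w ^ 2 := e6
        _ ≤ K * r * θ := by linarith
        _ = _ := by ring
    exact le_of_mul_le_mul_right e2 hr0
  have c2 : 20 * |((K + t : ℕ) : ℝ) - ((K + t : ℕ) : ℝ)| ≤ ((K + t : ℕ) : ℝ) * θ := by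
    rw [sub_self, abs_zero, mul_zero]
    positivity
  have c3 : 20 * |((K + t + s : ℕ) : ℝ) - (K : ℝ)| ≤ K * θ := by
    have e1 : ((K + t + s : ℕ) : ℝ) - (K : ℝ) = t + s := by push_cast; ring
    rw [e1, abs_of_nonneg (by linarith)]
    have e2 : 20 * ((t : ℝ) + s) * r ≤ K * θ * r := by
      have e3 : ν * θ ≤ 2 * (K * r) * θ := mul_le_mul_of_nonneg_right (by linarith) hθ0.le
      have e5 : 80 * w ^ 2 ≤ K * r * θ := by linarith
      calc 20 * ((t : ℝ) + s) * r = 20 * (t * r + s * r) := by ring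
        _ ≤ 20 * (2 * w ^ 2 + 2 * w ^ 2) := by linarith
        _ = 80 * w ^ 2 := by ring
        _ ≤ K * r * θ := e5
        _ = _ := by ring
    exact le_of_mul_le_mul_right e2 hr0
  -- parameters
  have hden : 0 < 1 + θ := by linarith
  obtain ⟨a, ha⟩ : ∃ a : ℝ, a = r * (1 + θ) := ⟨_, rfl⟩
  obtain ⟨b, hb⟩ : ∃ b : ℝ, b = r / (1 + θ) := ⟨_, rfl⟩
  have ha0 : 0 < a := by rw [ha]; positivity
  have hb0 : 0 < b := by rw [hb]; positivity
  have hra : r ≤ a := by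
    rw [ha]
    exact le_mul_of_one_le_right hr0.le (by linarith)
  have ha2 : a ≤ 2 * r := by
    rw [ha]
    calc r * (1 + θ) ≤ r * 2 := mul_le_mul_of_nonneg_left (by linarith) hr0.le
      _ = _ := by ring
  have hbr : b ≤ r := by
    rw [hb]
    exact div_le_self hr0.le (by linarith)
  have hb2 : r ≤ 2 * b := by
    rw [hb, ← mul_div_assoc, le_div_iff₀ hden]
    calc r * (1 + θ) ≤ r * 2 := mul_le_mul_of_nonneg_left (by linarith) hr0.le
      _ = _ := by ring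
  have hab : a * b = q := by
    rw [ha, hb, ← hrq]
    field_simp
  have hqa : q / a = b := by
    rw [← hab]
    field_simp
  have hqb : q / b = a := by
    rw [← hab]
    field_simp
  have hba : a - b ≤ 2 * r * θ := by
    have e1 : a - b = r * (θ * (2 + θ)) / (1 + θ) := by
      rw [ha, hb]
      field_simp
      ring
    rw [e1, div_le_iff₀ hden]
    have e2 : θ * (2 + θ) ≤ 2 * θ * (1 + θ) := by
      have e3 : 0 ≤ θ * θ := mul_nonneg hθ0.le hθ0.le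
      linarith
    calc r * (θ * (2 + θ)) ≤ r * (2 * θ * (1 + θ)) := mul_le_mul_of_nonneg_left e2 hr0.le
      _ = _ := by ring
  have hqr : q ≤ r / 4 := by
    rw [← hrq]
    have := mul_le_mul_of_nonneg_left hr4 hr0.le
    linarith
  have hqlta : q < a := by linarith
  have hqltb : q < b := by linarith
  have ha1 : a < 1 := by linarith
  have hb1 : b < 1 := by linarith
  -- the spread
  have hsb : w ^ 2 / 8 ≤ s * b := by
    have e1 : (s : ℝ) * r ≤ s * (2 * b) := mul_le_mul_of_nonneg_left hb2 hs0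
    linarith
  have hsa : w ^ 2 / 8 ≤ s * a := by
    have e1 : (s : ℝ) * b ≤ s * a := mul_le_mul_of_nonneg_left (hbr.trans hra) hs0
    linarith
  have hw9 : (w / 3) ^ 2 ≤ w ^ 2 / 8 := by
    have : (0 : ℝ) ≤ w ^ 2 := sq_nonneg w
    have e : (w / 3) ^ 2 = w ^ 2 / 9 := by ring
    rw [e]
    linarith
  have hsqb : w / 3 ≤ Real.sqrt (s * b) := Real.le_sqrt_of_sq_le (hw9.trans hsb)
  have hsqa : w / 3 ≤ Real.sqrt (s * a) := Real.le_sqrt_of_sq_le (hw9.trans hsa)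
  have hmean : mean a - mean b ≤ 8 * (r * θ) := by
    have e1 := (hKM.2.2.1 a b ha0.le (by linarith) hb0.le (by linarith)).1
    have e2 : |a - b| ≤ 2 * r * θ := by
      rw [abs_of_nonneg (by linarith)]
      exact hba
    have e3 := le_abs_self (mean a - mean b)
    linarith
  -- lower bound for P(D ≤ y)
  have hU : κ / 2 ≤ μ.real {ω | (Tr W (K + t + s) K ω : ℝ) - Tr W (K + t) (K + t) ω ≤
      (s * mean a - t * mean b) - κ * Real.sqrt (s * a)} := by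
    obtain ⟨Ω', _, μ', I, J, W', X, hS⟩ := lSys (κ := Empty) q a (fun _ => 0) hq hqlta ha1
      (fun k => k.elim)
    obtain ⟨hS0, hBk⟩ := (lOps μ' q).1 _ _ _ _ _ _ hS
    have hp' : IsProbabilityMeasure μ' := hBk.prob
    have hTr := transfer hW hBk (K + t + s) K (K + t) (K + t)
      (Set.Iic ((s * mean a - t * mean b) - κ * Real.sqrt (s * a))) measurableSet_Iic
    have hTr' : μ.real {ω | (Tr W (K + t + s) K ω : ℝ) - Tr W (K + t) (K + t) ω ≤
      (s * mean a - t * mean b) - κ * Real.sqrt (s * a)} =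
      μ'.real {ω | (Tr W' (K + t + s) K ω : ℝ) - Tr W' (K + t) (K + t) ω ≤
      (s * mean a - t * mean b) - κ * Real.sqrt (s * a)} := hTr
    rw [hTr']
    have hgeo := hKD μ' q a I J W' (K + t) K s t hq hqlta ha1 hS0
    rw [hqa] at hgeo
    have hE := (hac μ' a b s t _ _ ha0 (by linarith) hb0.le (by linarith) (by linarith)
      (by
        have e1 : (t : ℝ) * b ≤ s * a := mul_le_mul htsr (hbr.trans hra) hb0.le hs0
        have e2 : 0 ≤ (s : ℝ) * a := by positivity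
        linarith) hgeo).2
    have hS0' : Sys0 μ' q (Real.sqrt q * (1 + θ)) I J W' := by
      rw [← hr, ← ha]
      exact hS0
    have B1 := (h7 μ' q θ I J W' (K + t) K hq hq16 (by rw [← hr]; linarith)
      (by rw [← hr]; exact w1.1) (by rw [← hr]; exact w1.2) c1).1 hS0'
    have B2 := (h7 μ' q θ I J W' (K + t) (K + t) hq hq16 (by rw [← hr, ← hνe]; linarith)
      (by rw [← hr, ← hνe]; exact w2.1) (by rw [← hr, ← hνe]; exact w2.2) c2).1 hS0'
    have hsub : {ω | ∑ i : Fin s, (Ninc I J W' K (K + t + i) ω : ℝ) -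
        ∑ j : Fin t, (Einc I J W' (K + t) (K + j) ω : ℝ) ≤
        (s * mean a - t * mean b) - κ * Real.sqrt (s * a)} ⊆
        {ω | (Tr W' (K + t + s) K ω : ℝ) - Tr W' (K + t) (K + t) ω ≤
        (s * mean a - t * mean b) - κ * Real.sqrt (s * a)} ∪
        ({ω | Gr I zr W' (K + t) K ω < Gr zr J W' (K + t) K ω} ∪
        {ω | Gr I zr W' (K + t) (K + t) ω < Gr zr J W' (K + t) (K + t) ω}) := by
      intro ω hω
      by_cases b1 : Gr I zr W' (K + t) K ω < Gr zr J W' (K + t) K ω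
      · exact Or.inr (Or.inl b1)
      by_cases b2 : Gr I zr W' (K + t) (K + t) ω < Gr zr J W' (K + t) (K + t) ω
      · exact Or.inr (Or.inr b2)
      left
      exact (detU I J W' K t s ω (not_lt.1 b1) (not_lt.1 b2)).trans hω
    have h9 := (measureReal_mono (μ := μ') hsub).trans (measureReal_union_le _ _)
    have h10 := measureReal_union_le (μ := μ')
      {ω | Gr I zr W' (K + t) K ω < Gr zr J W' (K + t) K ω}
      {ω | Gr I zr W' (K + t) (K + t) ω < Gr zr J W' (K + t) (K + t) ω}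
    linarith
  -- lower bound for P(D ≥ x)
  have hL : κ / 2 ≤ μ.real {ω | (s * mean b - t * mean a) + κ * Real.sqrt (s * b) ≤
      (Tr W (K + t + s) K ω : ℝ) - Tr W (K + t) (K + t) ω} := by
    obtain ⟨Ω', _, μ', I, J, W', X, hS⟩ := lSys (κ := Empty) q b (fun _ => 0) hq hqltb hb1
      (fun k => k.elim)
    obtain ⟨hS0, hBk⟩ := (lOps μ' q).1 _ _ _ _ _ _ hS
    have hp' : IsProbabilityMeasure μ' := hBk.prob
    have hTr := transfer hW hBk (K + t + s) K (K + t) (K + t)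
      (Set.Ici ((s * mean b - t * mean a) + κ * Real.sqrt (s * b))) measurableSet_Ici
    have hTr' : μ.real {ω | (s * mean b - t * mean a) + κ * Real.sqrt (s * b) ≤
      (Tr W (K + t + s) K ω : ℝ) - Tr W (K + t) (K + t) ω} =
      μ'.real {ω | (s * mean b - t * mean a) + κ * Real.sqrt (s * b) ≤
      (Tr W' (K + t + s) K ω : ℝ) - Tr W' (K + t) (K + t) ω} := hTr
    rw [hTr']
    have hgeo := hKD μ' q b I J W' (K + t) K s t hq hqltb hb1 hS0
    rw [hqb] at hgeo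
    have hE := (hac μ' b a s t _ _ hb0 (by linarith) ha0.le (by linarith) (by linarith)
      (by
        have e1 : (t : ℝ) * a ≤ s * (4 * b) := mul_le_mul htsr (by linarith) ha0.le hs0
        linarith) hgeo).1
    have hS0' : Sys0 μ' q (Real.sqrt q / (1 + θ)) I J W' := by
      rw [← hr, ← hb]
      exact hS0
    have B1 := (h7 μ' q θ I J W' (K + t) K hq hq16 (by rw [← hr]; linarith)
      (by rw [← hr]; exact w1.1) (by rw [← hr]; exact w1.2) c1).2 hS0'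
    have B2 := (h7 μ' q θ I J W' (K + t + s) K hq hq16 (by rw [← hr]; linarith)
      (by rw [← hr]; exact w1.1) (by rw [← hr]; exact w1.2) c3).2 hS0'
    have hsub : {ω | (s * mean b - t * mean a) + κ * Real.sqrt (s * b) ≤
        ∑ i : Fin s, (Ninc I J W' K (K + t + i) ω : ℝ) -
        ∑ j : Fin t, (Einc I J W' (K + t) (K + j) ω : ℝ)} ⊆
        {ω | (s * mean b - t * mean a) + κ * Real.sqrt (s * b) ≤
        (Tr W' (K + t + s) K ω : ℝ) - Tr W' (K + t) (K + t) ω} ∪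
        ({ω | Gr zr J W' (K + t) K ω < Gr I zr W' (K + t) K ω} ∪
        {ω | Gr zr J W' (K + t + s) K ω < Gr I zr W' (K + t + s) K ω}) := by
      intro ω hω
      by_cases b1 : Gr zr J W' (K + t) K ω < Gr I zr W' (K + t) K ω
      · exact Or.inr (Or.inl b1)
      by_cases b2 : Gr zr J W' (K + t + s) K ω < Gr I zr W' (K + t + s) K ω
      · exact Or.inr (Or.inr b2)
      left
      have hω' : (s * mean b - t * mean a) + κ * Real.sqrt (s * b) ≤
        ∑ i : Fin s, (Ninc I J W' K (K + t + i) ω : ℝ) -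
        ∑ j : Fin t, (Einc I J W' (K + t) (K + j) ω : ℝ) := hω
      exact hω'.trans (detL I J W' K t s ω (not_lt.1 b2) (not_lt.1 b1))
    have h9 := (measureReal_mono (μ := μ') hsub).trans (measureReal_union_le _ _)
    have h10 := measureReal_union_le (μ := μ')
      {ω | Gr zr J W' (K + t) K ω < Gr I zr W' (K + t) K ω}
      {ω | Gr zr J W' (K + t + s) K ω < Gr I zr W' (K + t + s) K ω}
    linarith
  -- the end
  have hD : MemLp (fun ω => (Tr W (K + t + s) K ω : ℝ) - Tr W (K + t) (K + t) ω) 2 μ := by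
    have e1 := (hT μ q W (K + t + s) K hq hq16 hW).1
    have e2 := (hT μ q W (K + t) (K + t) hq hq16 hW).1
    exact (e1.mono_exponent (by norm_num)).sub (e2.mono_exponent (by norm_num))
  have hxy : (s * mean a - t * mean b) - κ * Real.sqrt (s * a) + κ * w / 3 ≤
      (s * mean b - t * mean a) + κ * Real.sqrt (s * b) := by
    have e1 : κ * (w / 3) ≤ κ * Real.sqrt (s * a) := mul_le_mul_of_nonneg_left hsqa hκ.le
    have e2 : κ * (w / 3) ≤ κ * Real.sqrt (s * b) := mul_le_mul_of_nonneg_left hsqb hκ.le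
    have e3 : ((s : ℝ) + t) * (mean a - mean b) ≤ ((s : ℝ) + t) * (8 * (r * θ)) :=
      mul_le_mul_of_nonneg_left hmean (by linarith)
    have e4 : ((s : ℝ) + t) * (8 * (r * θ)) ≤ 32 * (w ^ 2 * θ) := by
      calc ((s : ℝ) + t) * (8 * (r * θ)) = 8 * (s * r + t * r) * θ := by ring
        _ ≤ 8 * (2 * w ^ 2 + 2 * w ^ 2) * θ := by
            apply mul_le_mul_of_nonneg_right _ hθ0.le
            linarith
        _ = _ := by ring
    linarith
  have hfin := var_ge _ hD _ _ (κ * w / 3) (κ / 2) (by positivity) hxy hL hU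
  have e5 : κ / 2 * (κ * w / 3 / 2) ^ 2 = κ ^ 3 / 72 * w ^ 2 := by ring
  rw [e5] at hfin
  exact hfin

end Pool.Agent.Q38.PNK
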