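import Pool.Agent.Q295.PN.StmA

/-!
# Project PN: jobs DE and ES (deficits, essential points)
-/

set_option autoImplicit false

namespace Pool.Agent.Q38.PN

open Finset Pool.Agent.Q295.PN

section

variable {ι : Type} [Fintype ι] [DecidableEq ι]

theorem op_true (κ : ι → Bool) (y : ι) : op (Function.update κ y true) = insert y (op κ) := by
  ext z
  by_cases h : z = y
  · subst h; simp [op]
  · simp [op, h]

theorem op_false (κ : ι → Bool) (y : ι) : op (Function.update κ y false) = (op κ).erase y := by
  ext z
  by_cases h : z = y
  · subst h; simp [op]
  · simp [op, h]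

theorem op_erase (κ : ι → Bool) (x : ι) (b : Bool) :
    (op (Function.update κ x b)).erase x = (op κ).erase x := by
  cases b
  · rw [op_false, Finset.erase_idem]
  · rw [op_true]
    ext z
    by_cases h : z = x <;> simp [h]

end

section

variable {ι : Type} [Fintype ι] [DecidableEq ι] [PartialOrder ι]

open Classical in
theorem Fw_self (x : ι) (κ : ι → Bool) (b : Bool) : Fw x (Function.update κ x b) = Fw x κ := by
  unfold Fw
  congr 1
  ext z
  simp only [mem_filter, op, mem_univ, true_and]
  constructor
  · rintro ⟨h1, h2⟩
    rw [Function.update_of_ne h2.ne'] at h1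
    exact ⟨h1, h2⟩
  · rintro ⟨h1, h2⟩
    rw [Function.update_of_ne h2.ne']
    exact ⟨h1, h2⟩

open Classical in
theorem Bw_self (x : ι) (κ : ι → Bool) (b : Bool) : Bw x (Function.update κ x b) = Bw x κ := by
  unfold Bw
  congr 1
  ext z
  simp only [mem_filter, op, mem_univ, true_and]
  constructor
  · rintro ⟨h1, h2⟩
    rw [Function.update_of_ne h2.ne] at h1
    exact ⟨h1, h2⟩
  · rintro ⟨h1, h2⟩
    rw [Function.update_of_ne h2.ne]
    exact ⟨h1, h2⟩

theorem De_self (x : ι) (κ : ι → Bool) (b : Bool) : De x (Function.update κ x b) = De x κ := by
  unfold De
  rw [Fw_self, Bw_self, op_erase]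

open Classical in
theorem de : S_DE := by
  intro hMC ι _ _ _ x κ
  obtain ⟨mono, ins, att, bd, two, six⟩ := hMC ι
  have h1 : ∀ κ : ι → Bool, Fw x κ + Bw x κ ≤ mc ((op κ).erase x) := fun κ => two (op κ) x
  refine ⟨h1 κ, fun b => ⟨De_self x κ b, Fw_self x κ b, Bw_self x κ b⟩, ?_, ?_⟩
  · have e1 : Lc (Function.update κ x true) = max (mc ((op κ).erase x)) (Fw x κ + Bw x κ + 1) := by
      unfold Lc
      rw [op_true]
      exact six (op κ) x
    have e0 : Lc (Function.update κ x false) = mc ((op κ).erase x) := by
      unfold Lc
      rw [op_false]
    have h := h1 κ
    unfold DD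
    simp only [e1, e0]
    unfold De
    by_cases h2 : mc ((op κ).erase x) = Fw x κ + Bw x κ
    · rw [if_pos (by omega), h2, max_eq_right (by omega)]
      push_cast
      ring
    · rw [if_neg (by omega), max_eq_left (by omega)]
      ring
  · intro y
    by_cases hyx : y = x
    · subst hyx
      rw [De_self, De_self]
      omega
    · have a0 := h1 (Function.update κ y false)
      have a1 := h1 (Function.update κ y true)
      have m0 : mc ((op (Function.update κ y false)).erase x) ≤
          mc ((op (Function.update κ y true)).erase x) := by
        apply mono
        rw [op_true, op_false]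
        intro z hz
        simp only [mem_erase, mem_insert] at hz ⊢
        tauto
      have m1 : mc ((op (Function.update κ y true)).erase x) ≤
          mc ((op (Function.update κ y false)).erase x) + 1 := by
        refine le_trans (mono _ (insert y ((op (Function.update κ y false)).erase x)) ?_) (ins _ _)
        rw [op_true, op_false]
        intro z hz
        simp only [mem_erase, mem_insert] at hz ⊢
        tauto
      have f0 : Fw x (Function.update κ y false) ≤ Fw x (Function.update κ y true) := by
        unfold Fw
        apply mono
        rw [op_true, op_false]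
        intro z hz
        simp only [mem_erase, mem_insert, mem_filter] at hz ⊢
        tauto
      have b0 : Bw x (Function.update κ y false) ≤ Bw x (Function.update κ y true) := by
        unfold Bw
        apply mono
        rw [op_true, op_false]
        intro z hz
        simp only [mem_erase, mem_insert, mem_filter] at hz ⊢
        tauto
      have f1 : Fw x (Function.update κ y true) ≤ Fw x (Function.update κ y false) + 1 := by
        unfold Fw
        refine le_trans (mono _ (insert y ((op (Function.update κ y false)).filter
          (fun y => x < y))) ?_) (ins _ _)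
        rw [op_true, op_false]
        intro z hz
        simp only [mem_erase, mem_insert, mem_filter] at hz ⊢
        tauto
      have b1 : Bw x (Function.update κ y true) ≤ Bw x (Function.update κ y false) + 1 := by
        unfold Bw
        refine le_trans (mono _ (insert y ((op (Function.update κ y false)).filter
          (fun y => y < x))) ?_) (ins _ _)
        rw [op_true, op_false]
        intro z hz
        simp only [mem_erase, mem_insert, mem_filter] at hz ⊢
        tauto
      have hfb : Fw x (Function.update κ y true) = Fw x (Function.update κ y false) ∨
          Bw x (Function.update κ y true) = Bw x (Function.update κ y false) := by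
        by_cases hlt : x < y
        · right
          unfold Bw
          congr 1
          rw [op_true, op_false]
          ext z
          simp only [mem_erase, mem_insert, mem_filter]
          constructor
          · rintro ⟨h | h, h2⟩
            · subst h
              exact absurd (lt_trans hlt h2) (lt_irrefl _)
            · refine ⟨⟨?_, h⟩, h2⟩
              rintro rfl
              exact absurd (lt_trans hlt h2) (lt_irrefl _)
          · rintro ⟨⟨_, h⟩, h2⟩
            exact ⟨Or.inr h, h2⟩
        · left
          unfold Fw
          congr 1
          rw [op_true, op_false]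
          ext z
          simp only [mem_erase, mem_insert, mem_filter]
          constructor
          · rintro ⟨h | h, h2⟩
            · subst h
              exact absurd h2 hlt
            · refine ⟨⟨?_, h⟩, h2⟩
              rintro rfl
              exact absurd h2 hlt
          · rintro ⟨⟨_, h⟩, h2⟩
            exact ⟨Or.inr h, h2⟩
      unfold De
      omega

open Classical in
theorem Fw_succ (hMC : S_MC) {x w : ι} {κ : ι → Bool} (h : x < w) (hw : κ w = true) :
    Fw w κ + 1 ≤ Fw x κ := by
  obtain ⟨mono, ins, att, bd, two, six⟩ := hMC ι
  obtain ⟨C, hC, hch, hcard⟩ := att ((op κ).filter (fun y => w < y))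
  have hwC : w ∉ C := by
    intro h1
    have h2 := hC h1
    simp at h2
  have h3 : (insert w C).card = Fw w κ + 1 := by
    rw [card_insert_of_notMem hwC, hcard]
    rfl
  rw [← h3]
  unfold Fw
  apply bd
  · intro z hz
    rw [mem_insert] at hz
    rw [mem_filter]
    rcases hz with rfl | hz
    · exact ⟨by simp [op, hw], h⟩
    · have h2 := hC hz
      rw [mem_filter] at h2
      exact ⟨h2.1, lt_trans h h2.2⟩
  · rw [coe_insert]
    apply hch.insert
    intro z hz _
    have h2 := hC hz
    rw [mem_filter] at h2
    exact Or.inl h2.2.le

open Classical in
theorem es : S_ES := by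
  intro hMC ι _ _ _ x κ M
  obtain ⟨mono, ins, att, bd, two, six⟩ := hMC ι
  obtain ⟨C, hC, hch, hcard⟩ := att ((op κ).filter (fun y => x < y))
  have hmem : ∀ w, Ess M x w κ → w ∈ C := by
    intro w hw
    by_contra hwC
    obtain ⟨h1, h2, h3, h4⟩ := hw
    have h5 : C.card ≤ Fw x (Function.update κ w false) := by
      unfold Fw
      apply bd _ _ _ hch
      rw [op_false]
      intro z hz
      have h6 := hC hz
      rw [mem_filter] at h6
      rw [mem_filter, mem_erase]
      refine ⟨⟨?_, h6.1⟩, h6.2⟩
      rintro rfl
      exact hwC hz
    have h7 : C.card = Fw x κ := hcard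
    omega
  have key : (univ.filter (fun w => Ess M x w κ)).card ≤ (Icc 1 M).card := by
    apply card_le_card_of_injOn (fun w => Fw x κ - Fw w κ)
    · intro w hw
      simp only [coe_filter, mem_univ, true_and, Set.mem_setOf_eq] at hw
      simp only [coe_Icc, Set.mem_Icc]
      have h5 := Fw_succ hMC hw.1 hw.2.1
      have h6 := hw.2.2.2
      omega
    · intro w hw w' hw' he
      simp only [coe_filter, mem_univ, true_and, Set.mem_setOf_eq] at hw hw'
      simp only at he
      by_contra hne
      have h5 := Fw_succ hMC hw.1 hw.2.1
      have h5' := Fw_succ hMC hw'.1 hw'.2.1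
      rcases hch (hmem w hw) (hmem w' hw') hne with h | h
      · have h8 := Fw_succ hMC (lt_of_le_of_ne h hne) hw'.2.1
        omega
      · have h8 := Fw_succ hMC (lt_of_le_of_ne h (Ne.symm hne)) hw.2.1
        omega
  simpa using key

end

end Pool.Agent.Q38.PN
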