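import Pool.Agent.Q38.PN.De

/-!
# Project PN: jobs MK and PS (discrete Mecke formula, sums over chains of open points)
-/

set_option autoImplicit false

namespace Pool.Agent.Q38.PN

open Finset Pool.Agent.Q295.PN

section

variable {ι : Type} [Fintype ι] [DecidableEq ι]

/-- The weight of the other coordinates. -/
noncomputable def wr (p : ℝ) (w : ι) (κ : ι → Bool) : ℝ :=
  ∏ i ∈ univ.erase w, (if κ i = true then p else 1 - p)

theorem wt_eq (p : ℝ) (w : ι) (κ : ι → Bool) :
    wt p κ = (if κ w = true then p else 1 - p) * wr p w κ := by
  unfold wt wr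
  rw [Finset.mul_prod_erase univ (fun i => if κ i = true then p else 1 - p) (mem_univ w)]

theorem wr_update (p : ℝ) (w : ι) (κ : ι → Bool) (b : Bool) :
    wr p w (Function.update κ w b) = wr p w κ := by
  unfold wr
  apply Finset.prod_congr rfl
  intro i hi
  rw [Function.update_of_ne (Finset.ne_of_mem_erase hi)]

theorem sum_flip (w : ι) (F : (ι → Bool) → ℝ) :
    ∑ κ : ι → Bool, F (Function.update κ w (!κ w)) = ∑ κ, F κ := by
  apply Fintype.sum_bijective (fun κ : ι → Bool => Function.update κ w (!κ w))
  · apply Function.Involutive.bijective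
    intro κ
    ext i
    by_cases h : i = w
    · subst h; simp
    · simp [h]
  · intro κ
    rfl

theorem Ex_split (p : ℝ) (w : ι) (F : (ι → Bool) → ℝ) :
    Ex p F = p * Ex p (fun κ => F (Function.update κ w true)) +
      (1 - p) * Ex p (fun κ => F (Function.update κ w false)) := by
  have key : ∀ b : Bool, Ex p (fun κ => F (Function.update κ w b)) =
      ∑ κ : ι → Bool, if κ w = b then wr p w κ * F κ else 0 := by
    intro b
    have e1 : Ex p (fun κ => F (Function.update κ w b)) =
        ∑ κ : ι → Bool, (if κ w = b then (if b = true then p else 1 - p) *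
          (wr p w κ * F κ) else 0) +
        ∑ κ : ι → Bool, (if κ w = !b then (if (!b) = true then p else 1 - p) *
          (wr p w κ * F (Function.update κ w b)) else 0) := by
      rw [← Finset.sum_add_distrib]
      unfold Ex
      apply Finset.sum_congr rfl
      intro κ _
      rw [wt_eq p w κ]
      by_cases h : κ w = b
      · have hu : Function.update κ w b = κ := by rw [← h, Function.update_eq_self]
        have hn : ¬ (κ w = !b) := by rw [h]; cases b <;> simp
        rw [if_pos h, if_neg hn, h]
        simp only [hu]
        ring
      · have hn : κ w = !b := by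
          cases b <;> cases hκ : κ w <;> simp_all
        rw [if_neg h, if_pos hn, hn]
        ring
    have e2 : (∑ κ : ι → Bool, (if κ w = !b then (if (!b) = true then p else 1 - p) *
          (wr p w κ * F (Function.update κ w b)) else 0)) =
        ∑ κ : ι → Bool, (if κ w = b then (if (!b) = true then p else 1 - p) *
          (wr p w κ * F κ) else 0) := by
      rw [← sum_flip w]
      apply Finset.sum_congr rfl
      intro κ _
      rw [Function.update_self, wr_update, Function.update_idem]
      by_cases h : κ w = b
      · have hu : Function.update κ w b = κ := by rw [← h, Function.update_eq_self]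
        rw [if_pos h, if_pos (by rw [h]), hu]
      · rw [if_neg h, if_neg]
        intro h2
        apply h
        cases b <;> cases hκ : κ w <;> simp_all
    rw [e1, e2, ← Finset.sum_add_distrib]
    apply Finset.sum_congr rfl
    intro κ _
    split_ifs <;> cases b <;> simp_all <;> ring
  rw [key, key, Finset.mul_sum, Finset.mul_sum, ← Finset.sum_add_distrib]
  unfold Ex
  apply Finset.sum_congr rfl
  intro κ _
  rw [wt_eq p w κ]
  cases h : κ w <;> simp <;> ring

theorem wt_nonneg {p : ℝ} (h0 : 0 < p) (h1 : p < 1) (κ : ι → Bool) : 0 ≤ wt p κ := by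
  unfold wt
  apply Finset.prod_nonneg
  intro i _
  split_ifs <;> linarith

theorem Ex_mono {p : ℝ} (h0 : 0 < p) (h1 : p < 1) {F G : (ι → Bool) → ℝ}
    (h : ∀ κ, F κ ≤ G κ) : Ex p F ≤ Ex p G := by
  unfold Ex
  apply Finset.sum_le_sum
  intro κ _
  exact mul_le_mul_of_nonneg_left (h κ) (wt_nonneg h0 h1 κ)

theorem Ex_nonneg {p : ℝ} (h0 : 0 < p) (h1 : p < 1) {F : (ι → Bool) → ℝ}
    (h : ∀ κ, 0 ≤ F κ) : 0 ≤ Ex p F := by
  unfold Ex
  apply Finset.sum_nonneg
  intro κ _
  exact mul_nonneg (wt_nonneg h0 h1 κ) (h κ)

theorem Ex_sum {α : Type} (s : Finset α) (p : ℝ) (F : α → (ι → Bool) → ℝ) :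
    Ex p (fun κ => ∑ a ∈ s, F a κ) = ∑ a ∈ s, Ex p (F a) := by
  unfold Ex
  rw [Finset.sum_comm]
  apply Finset.sum_congr rfl
  intro κ _
  rw [Finset.mul_sum]

theorem Ex_mul (p c : ℝ) (F : (ι → Bool) → ℝ) : Ex p (fun κ => c * F κ) = c * Ex p F := by
  unfold Ex
  rw [Finset.mul_sum]
  apply Finset.sum_congr rfl
  intro κ _
  ring

theorem Ex_zero (p : ℝ) : Ex p (fun _ : ι → Bool => 0) = 0 := by
  unfold Ex
  simp

theorem Ex_eq_zero (p : ℝ) {F : (ι → Bool) → ℝ} (h : ∀ κ, F κ = 0) : Ex p F = 0 := by
  unfold Ex
  simp [h]

end

section

variable {ι : Type} [Fintype ι] [DecidableEq ι] [PartialOrder ι]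

open Classical in
theorem ps : S_PS := by
  intro ι _ _ _ p c g i x h0 h1 hg
  have hpsi : ∀ (i : ℕ) (x : ι) (κ : ι → Bool), 0 ≤ psi p c g i x κ := by
    intro i
    induction i with
    | zero => intro x κ; exact hg x κ
    | succ i ih =>
      intro x κ
      unfold psi
      apply Finset.sum_nonneg
      intro z _
      split_ifs
      · exact ih _ _
      · exact le_rfl
  have hq : (0 : ℝ) < 1 - p := by linarith
  induction i generalizing x with
  | zero => simp [psi, itk]
  | succ i ih =>
    have e : Ex p (psi p c g (i + 1) x) =
        ∑ z, Ex p (fun κ => if x < z ∧ p * (bt x z : ℝ) < c ∧ κ z = true then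
        psi p c g i z (Function.update κ z false) else 0) := by
      rw [← Ex_sum]
      rfl
    rw [e]
    have e2 : (1 / (1 - p)) ^ (i + 1) * itk (kk p c) (fun y => Ex p (g y)) (i + 1) x =
        ∑ z, kk p c x z * ((1 / (1 - p)) *
          ((1 / (1 - p)) ^ i * itk (kk p c) (fun y => Ex p (g y)) i z)) := by
      show _ * ak _ _ x = _
      unfold ak
      rw [Finset.mul_sum]
      apply Finset.sum_congr rfl
      intro z _
      ring
    rw [e2]
    apply Finset.sum_le_sum
    intro z _
    by_cases hz : x < z ∧ p * (bt x z : ℝ) < c
    · have e3 : Ex p (fun κ => if x < z ∧ p * (bt x z : ℝ) < c ∧ κ z = true then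
        psi p c g i z (Function.update κ z false) else 0) =
          p * Ex p (fun κ => psi p c g i z (Function.update κ z false)) := by
        rw [Ex_split p z]
        simp only [Function.update_self, Function.update_idem, hz.1, hz.2, true_and, if_true]
        simp [Ex_zero]
      have e4 : kk p c x z = p := by
        unfold kk
        rw [if_pos hz]
      rw [e3, e4]
      apply mul_le_mul_of_nonneg_left _ h0.le
      have e5 := Ex_split p z (psi p c g i z)
      have e6 : 0 ≤ Ex p (fun κ => psi p c g i z (Function.update κ z true)) :=
        Ex_nonneg h0 h1 (fun κ => hpsi _ _ _)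
      have e7 : Ex p (fun κ => psi p c g i z (Function.update κ z false)) ≤
          (1 / (1 - p)) * Ex p (psi p c g i z) := by
        rw [one_div, ← div_eq_inv_mul, le_div_iff₀ hq]
        nlinarith
      refine le_trans e7 ?_
      apply mul_le_mul_of_nonneg_left (ih z)
      positivity
    · have e3 : Ex p (fun κ => if x < z ∧ p * (bt x z : ℝ) < c ∧ κ z = true then
        psi p c g i z (Function.update κ z false) else 0) = 0 := by
        apply Ex_eq_zero
        intro κ
        rw [if_neg]
        rintro ⟨a, b, _⟩
        exact hz ⟨a, b⟩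
      have e4 : kk p c x z = 0 := by
        unfold kk
        rw [if_neg hz]
      rw [e3, e4, zero_mul]

open Classical in
theorem mk : S_MK := by
  intro hMC hDE hES ι _ _ _ p M j x h0 h1
  have hq : (0 : ℝ) < 1 - p := by linarith
  -- right-hand side
  have hrr : Ex p (fun κ => if κ x = false ∧ De x κ = j then (1 : ℝ) else 0) =
      (1 - p) * rr p j x := by
    unfold rr Pr
    rw [Ex_split p x]
    have e1 : Ex p (fun κ : ι → Bool => if Function.update κ x true x = false ∧
        De x (Function.update κ x true) = j then (1 : ℝ) else 0) = 0 := by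
      apply Ex_eq_zero
      intro κ
      simp
    rw [e1, mul_zero, zero_add]
    congr 2
    ext κ
    rw [Function.update_self, De_self]
    simp
  have key : Ex p (fun κ => if κ x = false then p * ∑ w, (if κ w = false ∧
      De x (Function.update κ w true) = j ∧ Ess M x w (Function.update κ w true) then (1 : ℝ) else 0)
      else 0) =
      (1 - p) * Ex p (fun κ => if κ x = false ∧ De x κ = j then
        ((univ.filter (fun w => Ess M x w κ)).card : ℝ) else 0) := by
    have eL : Ex p (fun κ => if κ x = false then p * ∑ w, (if κ w = false ∧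
        De x (Function.update κ w true) = j ∧ Ess M x w (Function.update κ w true) then (1 : ℝ) else 0)
        else 0) = ∑ w, Ex p (fun κ => p * (if κ x = false ∧ κ w = false ∧
        De x (Function.update κ w true) = j ∧ Ess M x w (Function.update κ w true) then (1 : ℝ)
          else 0)) := by
      rw [← Ex_sum]
      congr 1
      ext κ
      by_cases hx : κ x = false
      · rw [if_pos hx, Finset.mul_sum]
        apply Finset.sum_congr rfl
        intro w _
        simp only [hx, true_and]
      · rw [if_neg hx]
        symm
        apply Finset.sum_eq_zero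
        intro w _
        rw [if_neg (fun h => hx h.1), mul_zero]
    have eR : (1 - p) * Ex p (fun κ => if κ x = false ∧ De x κ = j then
        ((univ.filter (fun w => Ess M x w κ)).card : ℝ) else 0) =
        ∑ w, (1 - p) * Ex p (fun κ => if κ x = false ∧ De x κ = j ∧ Ess M x w κ then (1 : ℝ)
          else 0) := by
      rw [← Finset.mul_sum, ← Ex_sum]
      congr 2
      ext κ
      by_cases hx : κ x = false ∧ De x κ = j
      · rw [if_pos hx]
        rw [Finset.card_filter]
        push_cast
        apply Finset.sum_congr rfl
        intro w _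
        simp only [hx.1, hx.2, true_and]
      · rw [if_neg hx]
        symm
        apply Finset.sum_eq_zero
        intro w _
        rw [if_neg]
        rintro ⟨a, b, _⟩
        exact hx ⟨a, b⟩
    rw [eL, eR]
    apply Finset.sum_congr rfl
    intro w _
    by_cases hxw : x < w
    · rw [Ex_split p w, Ex_split p w (fun κ => if κ x = false ∧ De x κ = j ∧ Ess M x w κ then (1 : ℝ)
          else 0)]
      have hne : x ≠ w := hxw.ne
      have a1 : Ex p (fun κ : ι → Bool => p * (if Function.update κ w true x = false ∧
          Function.update κ w true w = false ∧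
          De x (Function.update (Function.update κ w true) w true) = j ∧
          Ess M x w (Function.update (Function.update κ w true) w true) then (1 : ℝ) else 0)) = 0 := by
        apply Ex_eq_zero
        intro κ
        simp
      have a2 : Ex p (fun κ : ι → Bool => (if Function.update κ w false x = false ∧
          De x (Function.update κ w false) = j ∧
          Ess M x w (Function.update κ w false) then (1 : ℝ) else 0)) = 0 := by
        apply Ex_eq_zero
        intro κ
        rw [if_neg]
        rintro ⟨_, _, _, h, _⟩
        simp at h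
      rw [a1, a2]
      simp only [Function.update_self, Function.update_idem, Function.update_of_ne hne, true_and]
      rw [Ex_mul]
      ring
    · have a1 : (fun κ : ι → Bool => p * (if κ x = false ∧ κ w = false ∧
          De x (Function.update κ w true) = j ∧ Ess M x w (Function.update κ w true) then (1 : ℝ)
          else 0)) = fun _ => 0 := by
        ext κ
        rw [if_neg, mul_zero]
        rintro ⟨_, _, _, h, _⟩
        exact hxw h
      have a2 : (fun κ : ι → Bool => if κ x = false ∧ De x κ = j ∧ Ess M x w κ then (1 : ℝ)
          else 0) = fun _ => 0 := by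
        ext κ
        rw [if_neg]
        rintro ⟨_, _, h, _⟩
        exact hxw h
      rw [a1, a2, Ex_zero, mul_zero]
  rw [key]
  have hle : Ex p (fun κ => if κ x = false ∧ De x κ = j then
        ((univ.filter (fun w => Ess M x w κ)).card : ℝ) else 0) ≤
      (M : ℝ) * ((1 - p) * rr p j x) := by
    rw [← hrr, ← Ex_mul]
    apply Ex_mono h0 h1
    intro κ
    split_ifs
    · rw [mul_one]
      have := hES hMC ι x κ M
      exact_mod_cast this
    · simp
  calc (1 - p) * Ex p (fun κ => if κ x = false ∧ De x κ = j then
        ((univ.filter (fun w => Ess M x w κ)).card : ℝ) else 0)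
      ≤ (1 - p) * ((M : ℝ) * ((1 - p) * rr p j x)) := mul_le_mul_of_nonneg_left hle hq.le
    _ = M * (1 - p) ^ 2 * rr p j x := by ring

end

end Pool.Agent.Q38.PN
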