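import Pool.Agent.Q295.PN.StmD

/-!
# Project PN: job D4 (the two occupation fields)
-/

set_option autoImplicit false

namespace Pool.Agent.Q38.PN

open MeasureTheory ProbabilityTheory Finset Pool.Agent.Q295.PN

theorem mu_pos {n M K : ℕ} [NeZero M] [NeZero K] (hn : 1 ≤ n) : 0 < mu n M K := by
  unfold mu
  have h1 : (0 : ℝ) < n := by exact_mod_cast hn
  have h2 : (0 : ℝ) < M := by exact_mod_cast NeZero.pos M
  have h3 : (0 : ℝ) < K := by exact_mod_cast NeZero.pos K
  positivity

theorem exp_conv (x s : ℝ) (h0 : 0 ≤ s) (h1 : s ≤ 1) :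
    Real.exp (x * s) - 1 ≤ s * (Real.exp x - 1) := by
  have h := convexOn_exp.2 (Set.mem_univ x) (Set.mem_univ (0 : ℝ)) h0 (by linarith : 0 ≤ 1 - s)
    (by ring)
  simp only [smul_eq_mul, mul_zero, add_zero, Real.exp_zero, mul_one] at h
  rw [mul_comm x s]
  linarith

theorem rho_bd {t : NNReal} {n M K : ℕ} [NeZero M] [NeZero K] (hn : 1 ≤ n) (ht : t ≤ 1) :
    0 ≤ rho t n M K ∧ rho t n M K ≤ 1 - t := by
  have hm := mu_pos (n := n) (M := M) (K := K) hn
  have ht1 : (t : ℝ) ≤ 1 := by exact_mod_cast ht
  have ht0 : (0 : ℝ) ≤ t := t.2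
  have hden : 0 < Real.exp (mu n M K) - 1 := by
    have := Real.add_one_lt_exp hm.ne'
    linarith
  unfold rho
  constructor
  · apply div_nonneg _ hden.le
    have : 0 ≤ mu n M K * (1 - t) := mul_nonneg hm.le (by linarith)
    have := Real.one_le_exp this
    linarith
  · rw [div_le_iff₀ hden]
    exact exp_conv _ _ (by linarith) (by linarith)

theorem pp_bd {n M K : ℕ} [NeZero M] [NeZero K] (hn : 1 ≤ n) :
    0 < pp n M K ∧ pp n M K < 1 := by
  have hm := mu_pos (n := n) (M := M) (K := K) hn
  unfold pp
  constructor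
  · have : Real.exp (-(mu n M K)) < 1 := by
      rw [Real.exp_lt_one_iff]
      linarith
    linarith
  · have := Real.exp_pos (-(mu n M K))
    linarith

theorem d4 : S_D4 := by
  intro hD0 hD2 hD3 n M K _ _ t Ω _ P C Z hn ht hS
  obtain ⟨-, hcell, -⟩ := hD0 n M K hn
  have hm := mu_pos (n := n) (M := M) (K := K) hn
  have hrho := rho_bd (t := t) (n := n) (M := M) (K := K) hn ht
  have hpp := pp_bd (n := n) (M := M) (K := K) hn
  have ht0 : (0 : ℝ) ≤ t := t.2
  have hprob : IsProbabilityMeasure P := hS.prob
  have mC := hS.mC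
  have mZ := hS.mZ
  have mX : ∀ c, Measurable (fun ω => kap n M K (C ω) (fun i => Z i ω) c) := by
    intro c
    apply measurable_to_bool
    have e : (fun ω => kap n M K (C ω) (fun i => Z i ω) c) ⁻¹' {true} =
        ⋃ i : ℕ, ({ω | i < (C ω).1} ∩ {ω | cell n M K (Z i ω).1.1 = c}) := by
      ext ω
      simp [kap]
    rw [e]
    apply MeasurableSet.iUnion
    intro i
    apply MeasurableSet.inter
    · exact measurableSet_lt measurable_const mC.fst
    · exact (hcell.comp (mZ i).fst.fst) (measurableSet_singleton c)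
  have mY : ∀ c, Measurable (fun ω => kapt t n M K (C ω) (fun i => Z i ω) c) := by
    intro c
    apply measurable_to_bool
    have e : (fun ω => kapt t n M K (C ω) (fun i => Z i ω) c) ⁻¹' {true} =
        (⋃ i : ℕ, ({ω | i < (C ω).1} ∩ ({ω | (t : ℝ) ≤ (Z i ω).1.2} ∩
          {ω | cell n M K (Z i ω).1.1 = c}))) ∪
        ⋃ j : ℕ, ({ω | j < (C ω).2} ∩ {ω | cell n M K (Z j ω).2 = c}) := by
      ext ω
      simp [kapt]
    rw [e]
    apply MeasurableSet.union
    · apply MeasurableSet.iUnion
      intro i
      apply MeasurableSet.inter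
      · exact measurableSet_lt measurable_const mC.fst
      apply MeasurableSet.inter
      · exact measurableSet_le measurable_const (mZ i).fst.snd
      · exact (hcell.comp (mZ i).fst.fst) (measurableSet_singleton c)
    · apply MeasurableSet.iUnion
      intro i
      apply MeasurableSet.inter
      · exact measurableSet_lt measurable_const mC.snd
      · exact (hcell.comp (mZ i).snd) (measurableSet_singleton c)
  refine ⟨?_, ?_, hrho⟩
  · apply hD3 (Fin M × Fin K) P (fun ω => kap n M K (C ω) (fun i => Z i ω))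
      (fun ω => kapt t n M K (C ω) (fun i => Z i ω)) (pp n M K) (rho t n M K) hpp.1 hpp.2 hrho.1
      (by linarith [hrho.2]) mX mY
    intro A B
    rw [hD2 hD0 n M K t P C Z A B hn ht hS]
    have hden : 0 < Real.exp (mu n M K) - 1 := by
      have := Real.add_one_lt_exp hm.ne'
      linarith
    have e1 : 1 - pp n M K = Real.exp (-(mu n M K)) := by
      unfold pp
      ring
    have e2 : rho t n M K + (1 - rho t n M K) * (1 - pp n M K) = Real.exp (-(mu n M K * t)) := by
      rw [e1]
      have e3 : rho t n M K * (Real.exp (mu n M K) - 1) = Real.exp (mu n M K * (1 - t)) - 1 := by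
        unfold rho
        field_simp
      have e4 : Real.exp (-(mu n M K)) * Real.exp (mu n M K) = 1 := by
        rw [← Real.exp_add]
        simp
      calc rho t n M K + (1 - rho t n M K) * Real.exp (-(mu n M K)) =
          Real.exp (-(mu n M K)) + rho t n M K * (1 - Real.exp (-(mu n M K))) := by ring
        _ = Real.exp (-(mu n M K)) + rho t n M K * (Real.exp (-(mu n M K)) * Real.exp (mu n M K) -
            Real.exp (-(mu n M K))) := by rw [e4]
        _ = Real.exp (-(mu n M K)) +
            Real.exp (-(mu n M K)) * (rho t n M K * (Real.exp (mu n M K) - 1)) := by ring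
        _ = Real.exp (-(mu n M K)) * Real.exp (mu n M K * (1 - t)) := by rw [e3]; ring
        _ = Real.exp (-(mu n M K * t)) := by
          rw [← Real.exp_add]
          congr 1
          ring
    rw [e2, e1, ← Real.exp_add, ← Real.exp_nat_mul, ← Real.exp_nat_mul, ← Real.exp_nat_mul,
      ← Real.exp_add, ← Real.exp_add]
    congr 1
    have c1 : (A.card : ℝ) = ((A \ B).card : ℝ) + ((A ∩ B).card : ℝ) := by
      exact_mod_cast (Finset.card_sdiff_add_card_inter A B).symm
    have c2 : (B.card : ℝ) = ((B \ A).card : ℝ) + ((A ∩ B).card : ℝ) := by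
      rw [Finset.inter_comm A B]
      exact_mod_cast (Finset.card_sdiff_add_card_inter B A).symm
    rw [c1, c2]
    ring
  · intro F
    constructor
    · exact (measurable_of_finite F).comp (measurable_pi_iff.2 mX)
    · exact (measurable_of_finite F).comp (measurable_pi_iff.2 mY)

end Pool.Agent.Q38.PN
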