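import Pool.Agent.Q295.PN.StmK
import Pool.Agent.Q38.PN.Mk

/-!
# Project PN: job A2, first part
-/

set_option autoImplicit false

namespace Pool.Agent.Q38.PNA

open MeasureTheory ProbabilityTheory Finset
open Pool.Agent.W533.LP Pool.Agent.Q295.PN Pool.Agent.Q38.PN

section det

/-- the longest chain in a sub-box -/
theorem mc_box (hMC : S_MC) (N s a c : ℕ) (hs : 1 ≤ s) (w : ℕ → ℕ → ℕ)
    (A : Finset (Fin N × Fin N))
    (hA : ∀ v ∈ A, a ≤ (v.1 : ℕ) ∧ (v.1 : ℕ) < a + s ∧ c ≤ (v.2 : ℕ) ∧ (v.2 : ℕ) < c + s) :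
    mc (op (fun v : Fin N × Fin N => decide (1 ≤ w v.1 v.2)) ∩ A) ≤
      Lc (fun v : Fin s × Fin s => decide (1 ≤ w (v.1 + a) (v.2 + c))) := by
  classical
  obtain ⟨-, -, att, -⟩ := hMC (Fin N × Fin N)
  obtain ⟨-, -, -, bd, -⟩ := hMC (Fin s × Fin s)
  obtain ⟨C, hC, hch, hcard⟩ := att (op (fun v : Fin N × Fin N => decide (1 ≤ w v.1 v.2)) ∩ A)
  obtain ⟨φ, hφ⟩ : ∃ φ : Fin N × Fin N → Fin s × Fin s, ∀ v,
      φ v = (⟨((v.1 : ℕ) - a) % s, Nat.mod_lt _ (by omega)⟩,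
        ⟨((v.2 : ℕ) - c) % s, Nat.mod_lt _ (by omega)⟩) := ⟨_, fun _ => rfl⟩
  have h1 : ∀ v ∈ C, a ≤ (v.1 : ℕ) ∧ (v.1 : ℕ) < a + s ∧ c ≤ (v.2 : ℕ) ∧ (v.2 : ℕ) < c + s ∧
      1 ≤ w v.1 v.2 ∧ ((φ v).1 : ℕ) + a = v.1 ∧ ((φ v).2 : ℕ) + c = v.2 := by
    intro v hv
    have h2 := hC hv
    rw [mem_inter] at h2
    obtain ⟨b1, b2, b3, b4⟩ := hA v h2.2
    have h3 := h2.1
    simp only [op, mem_filter, mem_univ, true_and, decide_eq_true_eq] at h3
    refine ⟨b1, b2, b3, b4, h3, ?_, ?_⟩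
    · rw [hφ]
      simp only
      rw [Nat.mod_eq_of_lt (by omega)]
      omega
    · rw [hφ]
      simp only
      rw [Nat.mod_eq_of_lt (by omega)]
      omega
  have h2 : (C.image φ).card = C.card := by
    apply card_image_of_injOn
    intro v hv v' hv' he
    obtain ⟨-, -, -, -, -, e1, e2⟩ := h1 v hv
    obtain ⟨-, -, -, -, -, e1', e2'⟩ := h1 v' hv'
    rw [he] at e1 e2
    apply Prod.ext
    · apply Fin.ext
      omega
    · apply Fin.ext
      omega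
  rw [← hcard, ← h2]
  unfold Lc
  apply bd
  · intro u hu
    rw [mem_image] at hu
    obtain ⟨v, hv, rfl⟩ := hu
    obtain ⟨-, -, -, -, e0, e1, e2⟩ := h1 v hv
    simp only [op, mem_filter, mem_univ, true_and, decide_eq_true_eq]
    rw [e1, e2]
    exact e0
  · rw [coe_image]
    rintro u ⟨v, hv, rfl⟩ u' ⟨v', hv', rfl⟩ hne
    have hv'' : v ≠ v' := by
      rintro rfl
      exact hne rfl
    have key : ∀ v ∈ C, ∀ v' ∈ C, v ≤ v' → φ v ≤ φ v' := by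
      intro v hv v' hv' hle
      obtain ⟨-, -, -, -, -, e1, e2⟩ := h1 v hv
      obtain ⟨-, -, -, -, -, e1', e2'⟩ := h1 v' hv'
      have f1 : (v.1 : ℕ) ≤ v'.1 := hle.1
      have f2 : (v.2 : ℕ) ≤ v'.2 := hle.2
      constructor
      · show ((φ v).1 : ℕ) ≤ (φ v').1
        omega
      · show ((φ v).2 : ℕ) ≤ (φ v').2
        omega
    rcases hch hv hv' hv'' with h | h
    · exact Or.inl (key v hv v' hv' h)
    · exact Or.inr (key v' hv' v hv h)

theorem T_mono {W W' : ℕ → ℕ → ℕ} (h : ∀ i j, W i j ≤ W' i j) (m n : ℕ) : T W m n ≤ T W' m n :=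
  lMono zero zero zero zero W W' (fun _ => le_rfl) (fun _ => le_rfl) h m n

end det

section prob

variable {Ω : Type} [MeasurableSpace Ω]

theorem ind_le (W : ℕ → ℕ → Ω → ℕ) (m n : ℕ) (ω : Ω) : Tr (ind W) m n ω ≤ Tr W m n ω := by
  apply T_mono
  intro i j
  unfold ind
  split_ifs <;> omega

/-- expectation of the longest chain in a box -/
theorem Ex_chain (hMC : S_MC) (hK1 : S_K1) (hKT : S_KT) (hKP : S_KP) (hTL : S_TL) {μ : Measure Ω}
    {q : ℝ} {W : ℕ → ℕ → Ω → ℕ} (hq : 0 < q) (hq1 : q ≤ 1 / 16) (hW : Bulk μ q W) (N s a c : ℕ)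
    (hs : 1 ≤ s) (A : Finset (Fin N × Fin N))
    (hA : ∀ v ∈ A, a ≤ (v.1 : ℕ) ∧ (v.1 : ℕ) < a + s ∧ c ≤ (v.2 : ℕ) ∧ (v.2 : ℕ) < c + s) :
    Ex q (fun κ : Fin N × Fin N → Bool => (mc (op κ ∩ A) : ℝ)) ≤ 2 * s * mean (Real.sqrt q) := by
  have hprob : IsProbabilityMeasure μ := hW.prob
  have hW2 : Bulk μ q (shr a c W) := ((lOps μ q).2.2 W hW).1 a c
  obtain ⟨CT, -, hT⟩ := hKT hK1
  obtain ⟨t1, -, t3⟩ := hT μ q (shr a c W) s s hq hq1 hW2
  have hint : Integrable (fun ω => (Tr (shr a c W) s s ω : ℝ)) μ := t1.integrable (by norm_num)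
  rw [← hKP μ q W N N (fun κ => (mc (op κ ∩ A) : ℝ)) hq (by linarith) hW]
  have h1 : ∀ ω, (mc (op (fun v : Fin N × Fin N => decide (1 ≤ W v.1 v.2 ω)) ∩ A) : ℝ) ≤
      (Tr (shr a c W) s s ω : ℝ) := by
    intro ω
    have h2 := mc_box hMC N s a c hs (fun i j => W i j ω) A hA
    have h3 := hTL s s (fun i j => W (i + a) (j + c) ω)
    have h4 : Tr (ind (shr a c W)) s s ω =
        Lc (fun v : Fin s × Fin s => decide (1 ≤ W (v.1 + a) (v.2 + c) ω)) := h3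
    have h5 := ind_le (shr a c W) s s ω
    rw [h4] at h5
    exact_mod_cast h2.trans h5
  refine (integral_mono_of_nonneg (Filter.Eventually.of_forall fun ω => Nat.cast_nonneg _) hint
    (Filter.Eventually.of_forall h1)).trans (t3.trans (le_of_eq ?_))
  ring

theorem var_tri {μ : Measure Ω} [IsProbabilityMeasure μ] {A B : Ω → ℝ} (hA : MemLp A 2 μ)
    (hB : MemLp B 2 μ) :
    variance A μ ≤ 2 * variance B μ + 2 * ∫ ω, (B ω - A ω) ^ 2 ∂μ := by
  obtain ⟨c, hc⟩ : ∃ c, c = ∫ ω, B ω ∂μ := ⟨_, rfl⟩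
  have h1 : variance A μ ≤ ∫ ω, (A ω - c) ^ 2 ∂μ := by
    rw [← variance_sub_const hA.aestronglyMeasurable c]
    exact variance_le_expectation_sq (hA.sub (memLp_const c)).aestronglyMeasurable
  have h2 : variance B μ = ∫ ω, (B ω - c) ^ 2 ∂μ := by
    rw [variance_eq_integral hB.aestronglyMeasurable.aemeasurable, hc]
  have i1 : Integrable (fun ω => (B ω - c) ^ 2) μ := (hB.sub (memLp_const c)).integrable_sq
  have i2 : Integrable (fun ω => (B ω - A ω) ^ 2) μ := (hB.sub hA).integrable_sq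
  have i3 : Integrable (fun ω => (A ω - c) ^ 2) μ := (hA.sub (memLp_const c)).integrable_sq
  rw [h2, ← integral_const_mul, ← integral_const_mul, ← integral_add (i1.const_mul 2)
    (i2.const_mul 2)]
  refine h1.trans (integral_mono i3 ((i1.const_mul 2).add (i2.const_mul 2)) ?_)
  intro ω
  simp only
  nlinarith [sq_nonneg ((B ω - c) + (B ω - A ω))]

/-- variance of the difference for the indicators -/
theorem var_diff (hK11 : S_K11) : ∃ C : ℝ, 1 ≤ C ∧ ∀ {Ω : Type} [MeasurableSpace Ω]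
    (μ : Measure Ω) (q : ℝ) (W : ℕ → ℕ → Ω → ℕ) (N i j : ℕ), 0 < q → q ≤ 1 / 16 → Bulk μ q W →
    (N : ℝ) * N * q ^ 2 ≤ 1 →
    variance (fun ω => (Tr (ind W) N N ω : ℝ) - Tr (ind (shr i j W)) N N ω) μ ≤
      2 * variance (fun ω => (Tr W N N ω : ℝ) - Tr (shr i j W) N N ω) μ + C := by
  obtain ⟨C, hC, h⟩ := hK11
  refine ⟨16 * C, by linarith, ?_⟩
  intro Ω _ μ q W N i j hq hq1 hW hN
  have hprob : IsProbabilityMeasure μ := hW.prob
  have hW2 : Bulk μ q (shr i j W) := ((lOps μ q).2.2 W hW).1 i j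
  obtain ⟨a1, a2, a3⟩ := h μ q W N N hq hq1 hW
  obtain ⟨b1, b2, b3⟩ := h μ q (shr i j W) N N hq hq1 hW2
  have hx0 : 0 ≤ (N : ℝ) * N * q ^ 2 := by positivity
  have hb : C * ((N : ℝ) * N * q ^ 2) * (1 + (N : ℝ) * N * q ^ 2) ≤ 2 * C := by
    have e1 : C * ((N : ℝ) * N * q ^ 2) ≤ C * 1 := mul_le_mul_of_nonneg_left hN (by linarith)
    have e2 : C * ((N : ℝ) * N * q ^ 2) * (1 + (N : ℝ) * N * q ^ 2) ≤ (C * 1) * 2 :=
      mul_le_mul e1 (by linarith) (by linarith) (by linarith)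
    linarith
  refine (var_tri (a2.sub b2) (a1.sub b1)).trans ?_
  have i0 : Integrable (fun ω => (((Tr W N N ω : ℝ) - Tr (shr i j W) N N ω) -
      ((Tr (ind W) N N ω : ℝ) - Tr (ind (shr i j W)) N N ω)) ^ 2) μ :=
    ((a1.sub b1).sub (a2.sub b2)).integrable_sq
  have i1 : Integrable (fun ω => ((Tr W N N ω : ℝ) - Tr (ind W) N N ω) ^ 2) μ :=
    (a1.sub a2).integrable_sq
  have i2 : Integrable (fun ω => ((Tr (shr i j W) N N ω : ℝ) - Tr (ind (shr i j W)) N N ω) ^ 2) μ :=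
    (b1.sub b2).integrable_sq
  have h3 : ∫ ω, (((Tr W N N ω : ℝ) - Tr (shr i j W) N N ω) -
      ((Tr (ind W) N N ω : ℝ) - Tr (ind (shr i j W)) N N ω)) ^ 2 ∂μ ≤
      2 * ∫ ω, ((Tr W N N ω : ℝ) - Tr (ind W) N N ω) ^ 2 ∂μ +
      2 * ∫ ω, ((Tr (shr i j W) N N ω : ℝ) - Tr (ind (shr i j W)) N N ω) ^ 2 ∂μ := by
    rw [← integral_const_mul, ← integral_const_mul, ← integral_add (i1.const_mul 2)
      (i2.const_mul 2)]
    refine integral_mono i0 ((i1.const_mul 2).add (i2.const_mul 2)) ?_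
    intro ω
    simp only
    nlinarith [sq_nonneg (((Tr W N N ω : ℝ) - Tr (ind W) N N ω) +
      ((Tr (shr i j W) N N ω : ℝ) - Tr (ind (shr i j W)) N N ω))]
  have h4 : ∫ ω, (((fun ω => (Tr W N N ω : ℝ)) - fun ω => (Tr (shr i j W) N N ω : ℝ)) ω -
      ((fun ω => (Tr (ind W) N N ω : ℝ)) - fun ω => (Tr (ind (shr i j W)) N N ω : ℝ)) ω) ^ 2 ∂μ ≤
      8 * C := by
    refine le_trans (le_of_eq ?_) (h3.trans ?_)
    · rfl
    · linarith
  have h5 : variance ((fun ω => (Tr W N N ω : ℝ)) - fun ω => (Tr (shr i j W) N N ω : ℝ)) μ =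
      variance (fun ω => (Tr W N N ω : ℝ) - Tr (shr i j W) N N ω) μ := rfl
  rw [h5]
  linarith

theorem ind_memLp {μ : Measure Ω} {q : ℝ} {W : ℕ → ℕ → Ω → ℕ} (hW : Bulk μ q W) (x y : ℕ) :
    MemLp (fun ω => (ind W x y ω : ℝ)) 2 μ := by
  have hprob : IsProbabilityMeasure μ := hW.prob
  have hm : Measurable (fun ω => (ind W x y ω : ℝ)) := by
    have h1 : Measurable (W x y) := hW.meas (x, y)
    exact (measurable_of_countable (fun k : ℕ => ((if 1 ≤ k then 1 else 0 : ℕ) : ℝ))).comp h1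
  apply MemLp.of_bound hm.aestronglyMeasurable 1
  apply Filter.Eventually.of_forall
  intro ω
  unfold ind
  split_ifs <;> simp

end prob

end Pool.Agent.Q38.PNA
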