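import Pool.Agent.Q295.PN.StmK

/-!
# Project PN: job K10, first part (deterministic comparison, transfer, Chebyshev)
-/

set_option autoImplicit false

namespace Pool.Agent.Q38.PNK

open MeasureTheory ProbabilityTheory Filter Topology
open Pool.Agent.W533.LP Pool.Agent.Q295.PN

/-- the horizontal increments over `k` steps -/
theorem teleN {Ω : Type} [MeasurableSpace Ω] (I J : ℕ → Ω → ℕ)
    (W : ℕ → ℕ → Ω → ℕ) (m n k : ℕ) (ω : Ω) :
    Gr I J W (m + k) n ω = Gr I J W m n ω + ∑ i : Fin k, Ninc I J W n (m + i) ω := by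
  induction k with
  | zero => simp
  | succ k ih =>
    rw [Fin.sum_univ_castSucc]
    simp only [Fin.val_castSucc, Fin.val_last]
    rw [← add_assoc (Gr I J W m n ω), ← ih]
    have h := (lMeas.2.2 (fun i => I i ω) (fun j => J j ω) (fun i j => W i j ω) (m + k) n).1
    unfold Ninc Gr
    rw [show m + (k + 1) = m + k + 1 from rfl]
    omega

/-- the vertical increments over `k` steps -/
theorem teleE {Ω : Type} [MeasurableSpace Ω] (I J : ℕ → Ω → ℕ)
    (W : ℕ → ℕ → Ω → ℕ) (m n k : ℕ) (ω : Ω) :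
    Gr I J W m (n + k) ω = Gr I J W m n ω + ∑ j : Fin k, Einc I J W m (n + j) ω := by
  induction k with
  | zero => simp
  | succ k ih =>
    rw [Fin.sum_univ_castSucc]
    simp only [Fin.val_castSucc, Fin.val_last]
    rw [← add_assoc (Gr I J W m n ω), ← ih]
    have h := (lMeas.2.2 (fun i => I i ω) (fun j => J j ω) (fun i j => W i j ω) m (n + k)).2
    unfold Einc Gr
    rw [show n + (k + 1) = n + k + 1 from rfl]
    omega

theorem T_transp (W : ℕ → ℕ → ℕ) (m n : ℕ) : T W m n = T (fun i j => W j i) n m :=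
  lTransp zero zero W m n

/-- transposed sandwich -/
theorem sandV (I J : ℕ → ℕ) (W : ℕ → ℕ → ℕ) (m n : ℕ) :
    (G I zero W m n ≤ G zero J W m n → ∀ k,
      T W m (n + k) + G I J W m n ≤ G I J W m (n + k) + T W m n) ∧
    (G zero J W m n ≤ G I zero W m n → ∀ k ≤ n,
      G I J W m n + T W m (n - k) ≤ T W m n + G I J W m (n - k)) := by
  obtain ⟨h1, h2⟩ := lSand J I (fun i j => W j i) n m
  rw [← lTransp I zero W m n, ← lTransp zero J W m n] at h1 h2
  constructor
  · intro h k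
    have := h1 h k
    rw [← T_transp W m (n + k), ← T_transp W m n, ← lTransp I J W m n,
      ← lTransp I J W m (n + k)] at this
    exact this
  · intro h k hk
    have := h2 h k hk
    rw [← T_transp W m (n - k), ← T_transp W m n, ← lTransp I J W m n,
      ← lTransp I J W m (n - k)] at this
    exact this

/-- horizontal exits: `D ≤ D₊` -/
theorem detU {Ω : Type} [MeasurableSpace Ω] (I J : ℕ → Ω → ℕ) (W : ℕ → ℕ → Ω → ℕ) (K t s : ℕ)
    (ω : Ω) (h1 : Gr zr J W (K + t) K ω ≤ Gr I zr W (K + t) K ω)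
    (h2 : Gr zr J W (K + t) (K + t) ω ≤ Gr I zr W (K + t) (K + t) ω) :
    (Tr W (K + t + s) K ω : ℝ) - Tr W (K + t) (K + t) ω ≤
      ∑ i : Fin s, (Ninc I J W K (K + t + i) ω : ℝ) -
        ∑ j : Fin t, (Einc I J W (K + t) (K + j) ω : ℝ) := by
  have a1 := (lSand (fun i => I i ω) (fun j => J j ω) (fun i j => W i j ω) (K + t) K).1 h1 s
  have a2 := (sandV (fun i => I i ω) (fun j => J j ω) (fun i j => W i j ω) (K + t) (K + t)).2 h2
    t (by omega)
  rw [Nat.add_sub_cancel] at a2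
  have b1 := teleN I J W (K + t) K s ω
  have b2 := teleE I J W (K + t) K t ω
  have c1 : Tr W (K + t + s) K ω + Gr I J W (K + t) K ω ≤
    Gr I J W (K + t + s) K ω + Tr W (K + t) K ω := a1
  have c2 : Gr I J W (K + t) (K + t) ω + Tr W (K + t) K ω ≤
    Tr W (K + t) (K + t) ω + Gr I J W (K + t) K ω := a2
  have d1 : Tr W (K + t + s) K ω + ∑ j : Fin t, Einc I J W (K + t) (K + j) ω ≤
      Tr W (K + t) (K + t) ω + ∑ i : Fin s, Ninc I J W K (K + t + i) ω := by omega
  have d2 : (Tr W (K + t + s) K ω : ℝ) + ∑ j : Fin t, (Einc I J W (K + t) (K + j) ω : ℝ) ≤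
      Tr W (K + t) (K + t) ω + ∑ i : Fin s, (Ninc I J W K (K + t + i) ω : ℝ) := by
    exact_mod_cast d1
  linarith

/-- vertical exits: `D ≥ D₋` -/
theorem detL {Ω : Type} [MeasurableSpace Ω] (I J : ℕ → Ω → ℕ) (W : ℕ → ℕ → Ω → ℕ) (K t s : ℕ)
    (ω : Ω) (h1 : Gr I zr W (K + t + s) K ω ≤ Gr zr J W (K + t + s) K ω)
    (h2 : Gr I zr W (K + t) K ω ≤ Gr zr J W (K + t) K ω) :
    ∑ i : Fin s, (Ninc I J W K (K + t + i) ω : ℝ) -
        ∑ j : Fin t, (Einc I J W (K + t) (K + j) ω : ℝ) ≤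
    (Tr W (K + t + s) K ω : ℝ) - Tr W (K + t) (K + t) ω := by
  have a1 := (lSand (fun i => I i ω) (fun j => J j ω) (fun i j => W i j ω) (K + t + s) K).2 h1
    s (by omega)
  have a2 := (sandV (fun i => I i ω) (fun j => J j ω) (fun i j => W i j ω) (K + t) K).1 h2 t
  rw [Nat.add_sub_cancel] at a1
  have b1 := teleN I J W (K + t) K s ω
  have b2 := teleE I J W (K + t) K t ω
  have c1 : Gr I J W (K + t + s) K ω + Tr W (K + t) K ω ≤
    Tr W (K + t + s) K ω + Gr I J W (K + t) K ω := a1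
  have c2 : Tr W (K + t) (K + t) ω + Gr I J W (K + t) K ω ≤
    Gr I J W (K + t) (K + t) ω + Tr W (K + t) K ω := a2
  have d1 : Tr W (K + t) (K + t) ω + ∑ i : Fin s, Ninc I J W K (K + t + i) ω ≤
      Tr W (K + t + s) K ω + ∑ j : Fin t, Einc I J W (K + t) (K + j) ω := by omega
  have d2 : (Tr W (K + t) (K + t) ω : ℝ) + ∑ i : Fin s, (Ninc I J W K (K + t + i) ω : ℝ) ≤
      Tr W (K + t + s) K ω + ∑ j : Fin t, (Einc I J W (K + t) (K + j) ω : ℝ) := by
    exact_mod_cast d1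
  linarith

theorem meas_T' (m n : ℕ) : Measurable (fun w : ℕ → ℕ → ℕ => (T w m n : ℝ)) := by
  have h1 := lMeas.1 m n
  have h2 : Measurable (fun w : ℕ → ℕ → ℕ => (zero, zero, w)) := by fun_prop
  exact (measurable_of_countable (fun n : ℕ => (n : ℝ))).comp (h1.comp h2)

theorem transfer {Ω Ω' : Type} [MeasurableSpace Ω] [MeasurableSpace Ω']
    {μ : Measure Ω} {μ' : Measure Ω'} {q : ℝ} {W : ℕ → ℕ → Ω → ℕ} {W' : ℕ → ℕ → Ω' → ℕ}
    (h : Bulk μ q W) (h' : Bulk μ' q W') (m n m' n' : ℕ) (A : Set ℝ) (hA : MeasurableSet A) :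
    μ.real {ω | (Tr W m n ω : ℝ) - Tr W m' n' ω ∈ A} =
      μ'.real {ω | (Tr W' m n ω : ℝ) - Tr W' m' n' ω ∈ A} := by
  have hF : Measurable (fun w : ℕ → ℕ → ℕ => (T w m n : ℝ) - T w m' n') :=
    (meas_T' m n).sub (meas_T' m' n')
  have hI := lLawB μ μ' q W W' h h' _ hF
  have h3 := hI.measure_mem_eq hA
  unfold Measure.real
  exact congrArg ENNReal.toReal h3

/-- Two separated sets of large probability. -/
theorem var_ge {Ω : Type} [MeasurableSpace Ω] {μ : Measure Ω} [IsProbabilityMeasure μ]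
    (D : Ω → ℝ) (hD : MemLp D 2 μ) (x y z κ : ℝ) (hz : 0 < z) (hxy : y + z ≤ x)
    (h1 : κ ≤ μ.real {ω | x ≤ D ω}) (h2 : κ ≤ μ.real {ω | D ω ≤ y}) :
    κ * (z / 2) ^ 2 ≤ variance D μ := by
  have hch := meas_ge_le_variance_div_sq hD (by positivity : 0 < z / 2)
  have hv : 0 ≤ variance D μ := variance_nonneg _ _
  have hfin : μ.real {ω | z / 2 ≤ |D ω - ∫ ω, D ω ∂μ|} ≤ variance D μ / (z / 2) ^ 2 := by
    unfold Measure.real
    exact ENNReal.toReal_le_of_le_ofReal (by positivity) hch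
  have hκ : κ ≤ μ.real {ω | z / 2 ≤ |D ω - ∫ ω, D ω ∂μ|} := by
    rcases le_total (∫ ω, D ω ∂μ) (x - z / 2) with h | h
    · refine h1.trans (measureReal_mono ?_)
      intro ω hω
      have h3 : x ≤ D ω := hω
      show z / 2 ≤ |D ω - ∫ ω, D ω ∂μ|
      exact le_trans (by linarith) (le_abs_self _)
    · refine h2.trans (measureReal_mono ?_)
      intro ω hω
      have h3 : D ω ≤ y := hω
      show z / 2 ≤ |D ω - ∫ ω, D ω ∂μ|
      rw [abs_sub_comm]
      exact le_trans (by linarith) (le_abs_self _)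
  have h3 := hκ.trans hfin
  rwa [le_div_iff₀ (by positivity)] at h3

end Pool.Agent.Q38.PNK
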